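import Pool.Agent.FTN.St

/-!
# Free transport, interleaved norms: one variable, no shading
-/

set_option autoImplicit false

open MeasureTheory Set
open scoped ENNReal NNReal

namespace Pool.Agent.FTN

/-- the exponents -/
theorem Bas_exp {d : ℕ} {p : ℝ} (hd : 1 ≤ d) (hp : ((d : ℝ) + 1) / (d : ℝ) < p) :
    0 < (d : ℝ) ∧ (d : ℝ) + 1 < d * p ∧ 1 < p := by
  have hd0 : (0 : ℝ) < d := by exact_mod_cast hd
  have h3 : ((d : ℝ) + 1) / d * d < p * d := mul_lt_mul_of_pos_right hp hd0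
  rw [div_mul_cancel₀ _ hd0.ne'] at h3
  refine ⟨hd0, by linarith, ?_⟩
  have h4 : (1 : ℝ) < ((d : ℝ) + 1) / d := by
    rw [lt_div_iff₀ hd0]; linarith
  exact h4.trans hp

/-- [BAS]. -/
theorem thm_Bas (hO : St_Ost) (hW : St_Wgt) (hH : St_Hld) : St_Bas := by
  intro d p hd hp
  obtain ⟨hd0, hdp, hp1⟩ := Bas_exp hd hp
  rcases Nat.lt_or_ge 1 d with hd2 | hd2
  · -- `d ≥ 2`
    have hd1 : (1 : ℝ) < d := by exact_mod_cast hd2
    obtain ⟨C, hC⟩ := hO ((d : ℝ) * p - (d : ℝ) + 1) (by linarith)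
    refine ⟨C + 1, fun Φ hΦ => ?_⟩
    set K : ℝ≥0∞ := ∫⁻ v : ℝ, (∫⁻ u : ℝ, Φ u v ^ ((d : ℝ) * p / ((d : ℝ) + 1))) ^
      (((d : ℝ) + 1) / ((d : ℝ) * p - 1)) with hK
    by_cases hKt : K = ∞
    · rw [hKt, ENNReal.top_rpow_of_pos (by linarith), ENNReal.mul_top (by positivity)]
      exact le_top
    obtain ⟨F, W, hF, hWm, h1, h2, h3⟩ := hW d p hd2 hp Φ hΦ hKt
    have h4 := hH d p hd2 hp (fun _ u v => Φ u v) F W
      (hΦ.comp (f := fun z : ℝ × ℝ × ℝ => z.2) measurable_snd) hF hWm (by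
        filter_upwards [h1] with v hv
        filter_upwards [hv] with u hu
        rcases hu with h | h
        · exact Or.inl (Filter.Eventually.of_forall fun _ => h)
        · exact Or.inr h)
    have hq1 : 0 ≤ (d : ℝ) * p - (d : ℝ) := by linarith
    have h5 : ∀ᵐ t : ℝ, (∫⁻ x : ℝ, (∫⁻ v : ℝ, Φ (x - t * v) v) ^ p) ^ (d : ℝ) ≤
        (∫⁻ x : ℝ, (∫⁻ v : ℝ, F (x - t * v) v) ^ ((d : ℝ) * p - (d : ℝ) + 1)) *
          K ^ ((d : ℝ) - 1) := by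
      filter_upwards [h4] with t ht
      refine (ENNReal.rpow_le_rpow ht hd0.le).trans ?_
      rw [ENNReal.mul_rpow_of_nonneg _ _ hd0.le, ← ENNReal.rpow_mul, ← ENNReal.rpow_mul,
        one_div_mul_cancel hd0.ne', ENNReal.rpow_one, div_mul_cancel₀ _ hd0.ne']
      exact mul_le_mul_right (ENNReal.rpow_le_rpow h3 (by linarith)) _
    calc ∫⁻ t : ℝ, (∫⁻ x : ℝ, (∫⁻ v : ℝ, Φ (x - t * v) v) ^ p) ^ (d : ℝ)
        ≤ ∫⁻ t : ℝ, (∫⁻ x : ℝ, (∫⁻ v : ℝ, F (x - t * v) v) ^ ((d : ℝ) * p - (d : ℝ) + 1)) *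
          K ^ ((d : ℝ) - 1) := lintegral_mono_ae h5
      _ = (∫⁻ t : ℝ, ∫⁻ x : ℝ, (∫⁻ v : ℝ, F (x - t * v) v) ^ ((d : ℝ) * p - (d : ℝ) + 1)) *
          K ^ ((d : ℝ) - 1) := by
          rw [lintegral_mul_const' _ _ (ENNReal.rpow_ne_top_of_nonneg (by linarith) hKt)]
      _ ≤ (C * K ^ ((d : ℝ) * p - (d : ℝ))) * K ^ ((d : ℝ) - 1) := by
          refine mul_le_mul_left ((hC F hF).trans ?_) _
          have e1 : (d : ℝ) * p - (d : ℝ) + 1 - 1 = (d : ℝ) * p - (d : ℝ) := by ring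
          rw [e1]
          exact mul_le_mul_right (ENNReal.rpow_le_rpow h2 hq1) _
      _ = C * K ^ ((d : ℝ) * p - 1) := by
          rw [mul_assoc, ← ENNReal.rpow_add_of_nonneg _ _ hq1 (by linarith)]
          congr 2; ring
      _ ≤ ((C + 1 : ℝ≥0) : ℝ≥0∞) * K ^ ((d : ℝ) * p - 1) := by
          refine mul_le_mul_left ?_ _
          rw [ENNReal.coe_add]
          exact le_self_add
  · obtain rfl : d = 1 := le_antisymm hd2 hd
    obtain ⟨C, hC⟩ := hO p (by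
      have := hdp
      push_cast at this
      linarith)
    refine ⟨C, fun Φ hΦ => ?_⟩
    have h := hC Φ hΦ
    have e1 : ((1 : ℕ) : ℝ) * p / (((1 : ℕ) : ℝ) + 1) = p / 2 := by push_cast; ring
    have e2 : (((1 : ℕ) : ℝ) + 1) / (((1 : ℕ) : ℝ) * p - 1) = 2 / (p - 1) := by push_cast; ring
    have e3 : ((1 : ℕ) : ℝ) * p - 1 = p - 1 := by push_cast; ring
    rw [e1, e2, e3]
    simpa using h

end Pool.Agent.FTN
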