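import Pool.Agent.FTN.St

/-!
# Causal data: the interleaved norm is at most the mixed norm
-/

set_option autoImplicit false

open MeasureTheory Set
open scoped ENNReal NNReal

namespace Pool.Agent.FTN

private theorem Cau_fubini {k : ℕ} (g : (Fin (k + 1) → ℝ) → ℝ≥0∞) (hg : Measurable g) :
    ∫⁻ x : Fin (k + 1) → ℝ, g x = ∫⁻ x : ℝ, ∫⁻ y : Fin k → ℝ, g (Fin.cons x y) := by
  have h1 := (volume_preserving_piFinSuccAbove (fun _ : Fin (k + 1) => ℝ) 0).symm
  rw [← h1.lintegral_comp hg, Measure.volume_eq_prod, lintegral_prod]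
  · refine lintegral_congr fun x => lintegral_congr fun y => ?_
    have h2 : (MeasurableEquiv.piFinSuccAbove (fun _ : Fin (k + 1) => ℝ) 0).symm (x, y) =
        Fin.cons x y := Fin.insertNth_zero' x y
    rw [h2]
  · exact (hg.comp h1.measurable).aemeasurable

private theorem Cau_cons {k : ℕ} : Measurable (fun z : ℝ × (Fin k → ℝ) =>
    (Fin.cons z.1 z.2 : Fin (k + 1) → ℝ)) := by
  rw [measurable_pi_iff]
  intro i
  refine Fin.cases ?_ (fun j => ?_) i
  · simpa using measurable_fst
  · simp only [Fin.cons_succ]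
    exact (measurable_pi_apply j).comp measurable_snd

theorem thm_Cau : St_Cau := by
  intro a b k ha hb
  have hab : 0 < a / b := div_pos ha hb
  have h1a : 0 < 1 / a := one_div_pos.mpr ha
  induction k with
  | zero =>
    intro f _ _
    simp only [inorm]
    rw [volume_pi, Measure.pi_of_empty, lintegral_dirac, lintegral_dirac, ← ENNReal.rpow_mul,
      ← ENNReal.rpow_mul]
    have h1 : b * (a / b * (1 / a)) = 1 := by field_simp
    rw [h1, ENNReal.rpow_one]
    exact le_of_eq (by congr 1 <;> exact Subsingleton.elim _ _)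
  | succ k ih =>
    intro f hf hc
    obtain ⟨⟨A, B, hA, hB, hAB⟩, hc2⟩ := hc
    have hcons : ∀ x v : ℝ, Measurable (Function.uncurry
        (fun (y : Fin k → ℝ) (w : Fin k → ℝ) => f (Fin.cons x y) (Fin.cons v w))) := by
      intro x v
      have h1 : Measurable (fun z : (Fin k → ℝ) × (Fin k → ℝ) =>
          ((Fin.cons x z.1 : Fin (k + 1) → ℝ), (Fin.cons v z.2 : Fin (k + 1) → ℝ))) :=
        (Cau_cons.comp (measurable_const.prodMk measurable_fst)).prodMk
          (Cau_cons.comp (measurable_const.prodMk measurable_snd))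
      exact hf.comp h1
    have hB1 : ∀ v : ℝ, Measurable (fun w : Fin k → ℝ => B v w ^ (a / b)) := fun v =>
      (hB.comp (measurable_const.prodMk measurable_id)).pow_const _
    have hA1 : ∀ v : ℝ, Measurable (fun x : ℝ => A x v) := fun v =>
      hA.comp (measurable_id.prodMk measurable_const)
    -- the bound for the inner norm
    have hin : ∀ x v : ℝ, inorm a b k (fun y w => f (Fin.cons x y) (Fin.cons v w)) ^ b ≤
        A x v * (∫⁻ w : Fin k → ℝ, B v w ^ (a / b)) ^ (b / a) := by
      intro x v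
      have h1 := ih (fun y w => f (Fin.cons x y) (Fin.cons v w)) (hcons x v) (hc2 x v)
      have h2 : ∫⁻ w : Fin k → ℝ, (∫⁻ y : Fin k → ℝ,
          f (Fin.cons x y) (Fin.cons v w) ^ b) ^ (a / b) =
          A x v ^ (a / b) * ∫⁻ w : Fin k → ℝ, B v w ^ (a / b) := by
        rw [← lintegral_const_mul _ (hB1 v)]
        refine lintegral_congr fun w => ?_
        rw [hAB, ENNReal.mul_rpow_of_nonneg _ _ hab.le]
      rw [h2, ENNReal.mul_rpow_of_nonneg _ _ h1a.le] at h1
      refine le_trans (ENNReal.rpow_le_rpow h1 hb.le) ?_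
      rw [ENNReal.mul_rpow_of_nonneg _ _ hb.le, ← ENNReal.rpow_mul, ← ENNReal.rpow_mul,
        ← ENNReal.rpow_mul]
      have e1 : a / b * (1 / a) * b = 1 := by field_simp
      have e2 : 1 / a * b = b / a := by ring
      rw [← mul_assoc]
      rw [e1, e2, ENNReal.rpow_one]
    -- integrate
    have hmid : ∀ v : ℝ, (∫⁻ x : ℝ,
        inorm a b k (fun y w => f (Fin.cons x y) (Fin.cons v w)) ^ b) ^ (a / b) ≤
        ∫⁻ w : Fin k → ℝ, (∫⁻ x : ℝ, ∫⁻ y : Fin k → ℝ,
          f (Fin.cons x y) (Fin.cons v w) ^ b) ^ (a / b) := by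
      intro v
      have h1 : ∫⁻ x : ℝ, inorm a b k (fun y w => f (Fin.cons x y) (Fin.cons v w)) ^ b ≤
          (∫⁻ x : ℝ, A x v) * (∫⁻ w : Fin k → ℝ, B v w ^ (a / b)) ^ (b / a) := by
        rw [← lintegral_mul_const _ (hA1 v)]
        exact lintegral_mono fun x => hin x v
      refine le_trans (ENNReal.rpow_le_rpow h1 hab.le) ?_
      rw [ENNReal.mul_rpow_of_nonneg _ _ hab.le, ← ENNReal.rpow_mul]
      have e1 : b / a * (a / b) = 1 := by field_simp
      rw [e1, ENNReal.rpow_one, ← lintegral_const_mul _ (hB1 v)]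
      refine lintegral_mono fun w => ?_
      rw [← ENNReal.mul_rpow_of_nonneg _ _ hab.le, ← lintegral_mul_const _ (hA1 v)]
      refine le_of_eq ?_
      congr 1
      refine lintegral_congr fun x => ?_
      rw [hAB]
    simp only [inorm]
    refine ENNReal.rpow_le_rpow ?_ h1a.le
    have hpow : Measurable (fun z : (Fin (k + 1) → ℝ) × (Fin (k + 1) → ℝ) => f z.1 z.2 ^ b) :=
      hf.pow_const b
    have hout : Measurable (fun v : Fin (k + 1) → ℝ =>
        (∫⁻ x : Fin (k + 1) → ℝ, f x v ^ b) ^ (a / b)) :=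
      (Measurable.lintegral_prod_left' hpow).pow_const _
    rw [Cau_fubini _ hout]
    refine lintegral_mono fun v => le_trans (hmid v) (lintegral_mono fun w => le_of_eq ?_)
    congr 1
    exact (Cau_fubini _ (hpow.comp (measurable_id.prodMk measurable_const))).symm

end Pool.Agent.FTN
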