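import Mathlib

/-!
# Free transport, interleaved norms: definitions (problem MP_eac235_an)

`ρ(t, x) = ∫ f(x - t v, v) dv`.  In the conjectured range `p > (d + 1) / d`, `a' = d p`,
`b = d p / (d + 1)`, the norm `‖ρ‖_{L^p(ℝ × ℝ^d)}` is bounded by the interleaved norm
`L^a_{v_1} L^b_{x_1} ⋯ L^a_{v_d} L^b_{x_d}` of `f`, for every `f ≥ 0`.
-/

set_option autoImplicit false

open MeasureTheory Set
open scoped ENNReal NNReal

namespace Pool.Agent.FTN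

/-- The interleaved mixed norm `L^a_{v_1} L^b_{x_1} L^a_{v_2} L^b_{x_2} ⋯ L^a_{v_d} L^b_{x_d}` of
`f = f x v` (the norm in `x_d` is computed first). -/
noncomputable def inorm (a b : ℝ) : (d : ℕ) → ((Fin d → ℝ) → (Fin d → ℝ) → ℝ≥0∞) → ℝ≥0∞
  | 0, f => f 0 0
  | d + 1, f => (∫⁻ v : ℝ, (∫⁻ x : ℝ,
      inorm a b d (fun y w => f (Fin.cons x y) (Fin.cons v w)) ^ b) ^ (a / b)) ^ (1 / a)

/-- Causal data: for every `i` the function `∫ f(x, v)^b dx_(i+1) ... dx_d` is, for fixed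
`x_1, ..., x_(i-1)` and `v_1, ..., v_(i-1)`, the product of a function of `(x_i, v_i)` and a function
of `(v_i, ..., v_d)`.  (If `f(x, v)^b = B(v) π_v(x)` with probability densities `π_v`: under `π_v` the
law of `(x_1, ..., x_i)` depends only on `(v_1, ..., v_i)`.) -/
def Causal (b : ℝ) : (d : ℕ) → ((Fin d → ℝ) → (Fin d → ℝ) → ℝ≥0∞) → Prop
  | 0, _ => True
  | d + 1, f => (∃ (A : ℝ → ℝ → ℝ≥0∞) (B : ℝ → (Fin d → ℝ) → ℝ≥0∞),
      Measurable (Function.uncurry A) ∧ Measurable (Function.uncurry B) ∧ ∀ x v w,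
      ∫⁻ y : Fin d → ℝ, f (Fin.cons x y) (Fin.cons v w) ^ b = A x v * B v w) ∧
    ∀ x v, Causal b d (fun y w => f (Fin.cons x y) (Fin.cons v w))

/-- The estimate of the problem for one `f = f x v`, with the constant `C`:
`‖ρ‖_{L^p(ℝ × ℝ^d)} ≤ C ‖f‖_{L^a_v L^b_x}`, `a = d p / (d p - 1)`, `b = d p / (d + 1)`. -/
def Est (d : ℕ) (p : ℝ) (C : ℝ≥0) (f : (Fin d → ℝ) → (Fin d → ℝ) → ℝ≥0∞) : Prop :=
  (∫⁻ t : ℝ, ∫⁻ x : Fin d → ℝ, (∫⁻ v : Fin d → ℝ, f (x - t • v) v) ^ p) ^ (1 / p) ≤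
    (C : ℝ≥0∞) *
      (∫⁻ v : Fin d → ℝ, (∫⁻ x : Fin d → ℝ, f x v ^ ((d : ℝ) * p / ((d : ℝ) + 1))) ^
          (((d : ℝ) * p / ((d : ℝ) * p - 1)) / ((d : ℝ) * p / ((d : ℝ) + 1)))) ^
        (1 / ((d : ℝ) * p / ((d : ℝ) * p - 1)))

end Pool.Agent.FTN
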