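import Pool.Agent.FTN.Defs

/-!
# Free transport, interleaved norms: adapted products are causal
-/

set_option autoImplicit false

open MeasureTheory Set
open scoped ENNReal NNReal

namespace Pool.Agent.FTN

/-- measurability of `Fin.cons` -/
theorem Exa_cons {k : ℕ} {Z : Type*} [MeasurableSpace Z] {s : Z → ℝ} {w : Z → Fin k → ℝ}
    (hs : Measurable s) (hw : Measurable w) :
    Measurable fun z => (Fin.cons (s z) (w z) : Fin (k + 1) → ℝ) := by
  refine measurable_pi_iff.2 fun i => ?_
  refine Fin.cases ?_ (fun j => ?_) i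
  · simpa using hs
  · simpa using (measurable_pi_iff.1 hw) j

/-- Adapted products (times a constant) are causal. -/
theorem Exa_causal (b : ℝ) (hb : 0 ≤ b) : ∀ (d : ℕ) (c : ℝ≥0∞)
    (φ : Fin d → ℝ → (Fin d → ℝ) → ℝ≥0∞), (∀ i, Measurable (Function.uncurry (φ i))) →
    (∀ i s v w, (∀ j, j ≤ i → v j = w j) → φ i s v = φ i s w) →
    Causal b d (fun x v => c * ∏ i, φ i (x i) v)
  | 0, _, _, _, _ => trivial
  | d + 1, c, φ, hφ, had => by
    have h0 : ∀ (x v : ℝ) (w : Fin d → ℝ), φ 0 x (Fin.cons v w) = φ 0 x (Fin.cons v 0) := by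
      intro x v w
      refine had 0 x _ _ fun j hj => ?_
      obtain rfl : j = 0 := le_antisymm hj (Fin.zero_le j)
      simp
    have hexp : ∀ (x : ℝ) (y : Fin d → ℝ) (v : ℝ) (w : Fin d → ℝ),
        c * ∏ i, φ i ((Fin.cons x y : Fin (d + 1) → ℝ) i) (Fin.cons v w) =
          (c * φ 0 x (Fin.cons v 0)) * ∏ i : Fin d, φ i.succ (y i) (Fin.cons v w) := by
      intro x y v w
      rw [Fin.prod_univ_succ]
      simp only [Fin.cons_zero, Fin.cons_succ]
      rw [h0, mul_assoc]
    have hprod : Measurable fun z : (ℝ × (Fin d → ℝ)) × (Fin d → ℝ) =>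
        ∏ i : Fin d, φ i.succ (z.2 i) (Fin.cons z.1.1 z.1.2) := by
      refine Finset.measurable_prod _ fun i _ => ?_
      have h1 : Measurable fun z : (ℝ × (Fin d → ℝ)) × (Fin d → ℝ) =>
          (z.2 i, (Fin.cons z.1.1 z.1.2 : Fin (d + 1) → ℝ)) :=
        ((measurable_pi_apply i).comp measurable_snd).prodMk
          (Exa_cons (measurable_fst.comp measurable_fst) (measurable_snd.comp measurable_fst))
      exact (hφ i.succ).comp h1
    refine ⟨⟨fun x v => (c * φ 0 x (Fin.cons v 0)) ^ b,
      fun v w => ∫⁻ y : Fin d → ℝ, (∏ i : Fin d, φ i.succ (y i) (Fin.cons v w)) ^ b,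
      ?_, ?_, ?_⟩, ?_⟩
    · refine Measurable.pow_const (Measurable.const_mul ?_ c) b
      have h1 : Measurable fun z : ℝ × ℝ =>
          (z.1, (Fin.cons z.2 (0 : Fin d → ℝ) : Fin (d + 1) → ℝ)) :=
        measurable_fst.prodMk (Exa_cons measurable_snd measurable_const)
      exact (hφ 0).comp h1
    · exact (hprod.pow_const b).lintegral_prod_right'
    · intro x v w
      simp only [hexp]
      rw [← lintegral_const_mul]
      · refine lintegral_congr fun y => ?_
        rw [ENNReal.mul_rpow_of_nonneg _ _ hb]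
      · exact (hprod.pow_const b).comp (f := fun y => ((v, w), y)) measurable_prodMk_left
    · intro x v
      have h := Exa_causal b hb d (c * φ 0 x (Fin.cons v 0))
        (fun i s w => φ i.succ s (Fin.cons v w)) (fun i => by
          have h1 : Measurable fun z : ℝ × (Fin d → ℝ) =>
              (z.1, (Fin.cons v z.2 : Fin (d + 1) → ℝ)) :=
            measurable_fst.prodMk (Exa_cons measurable_const measurable_snd)
          exact (hφ i.succ).comp h1)
        (fun i s w w' hw => by
          refine had i.succ s _ _ fun j hj => ?_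
          revert hj
          refine Fin.cases (fun _ => by simp) (fun j hj => ?_) j
          simp only [Fin.cons_succ]
          exact hw j (Fin.succ_le_succ_iff.1 hj))
      have e : (fun y w => c * ∏ i, φ i ((Fin.cons x y : Fin (d + 1) → ℝ) i) (Fin.cons v w)) =
          fun (y w : Fin d → ℝ) => (c * φ 0 x (Fin.cons v 0)) *
            ∏ i : Fin d, φ i.succ (y i) (Fin.cons v w) := by
        funext y w
        exact hexp x y v w
      show Causal b d _
      simp only [hexp]
      exact h

/-- Products of functions `φ_i(x_i; v_1, ..., v_i)` are causal. -/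
theorem Exa_prod (b : ℝ) (hb : 0 ≤ b) (d : ℕ) (φ : Fin d → ℝ → (Fin d → ℝ) → ℝ≥0∞)
    (hφ : ∀ i, Measurable (Function.uncurry (φ i)))
    (had : ∀ i s v w, (∀ j, j ≤ i → v j = w j) → φ i s v = φ i s w) :
    Causal b d (fun x v => ∏ i, φ i (x i) v) := by
  simpa using Exa_causal b hb d 1 φ hφ had

end Pool.Agent.FTN
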