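import Pool.Agent.FTN.St

/-!
# FTN, module Hld (helper6): Hölder with the two factors
-/

set_option autoImplicit false

open MeasureTheory Set
open scoped ENNReal NNReal

namespace Pool.Agent.FTN

/-- A property that holds almost everywhere in the coordinates `(v, u, t)` holds almost everywhere
on the lines `u = x - t v`. -/
theorem Hld_ae (A : Set (ℝ × ℝ × ℝ)) (hA : MeasurableSet A)
    (h : ∀ᵐ v : ℝ, ∀ᵐ u : ℝ, ∀ᵐ t : ℝ, ((t, u, v) : ℝ × ℝ × ℝ) ∈ A) :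
    ∀ᵐ t : ℝ, ∀ᵐ x : ℝ, ∀ᵐ v : ℝ, ((t, x - t * v, v) : ℝ × ℝ × ℝ) ∈ A := by
  -- exchange `u` and `t`, translate `u`
  have h1 : ∀ᵐ v : ℝ, ∀ᵐ t : ℝ, ∀ᵐ x : ℝ, ((t, x - t * v, v) : ℝ × ℝ × ℝ) ∈ A := by
    filter_upwards [h] with v hv
    have hm : MeasurableSet {z : ℝ × ℝ | ((z.2, z.1, v) : ℝ × ℝ × ℝ) ∈ A} := by
      have : Measurable fun z : ℝ × ℝ => ((z.2, z.1, v) : ℝ × ℝ × ℝ) := by fun_prop
      exact this hA
    have h2 := (Measure.ae_ae_comm (μ := (volume : Measure ℝ)) (ν := (volume : Measure ℝ))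
      (p := fun u t => ((t, u, v) : ℝ × ℝ × ℝ) ∈ A) hm).1 hv
    filter_upwards [h2] with t ht
    exact (measurePreserving_sub_right (volume : Measure ℝ) (t * v)).quasiMeasurePreserving.ae ht
  -- join `t` and `x`
  have hm : MeasurableSet {z : ℝ × (ℝ × ℝ) | ((z.2.1, z.2.2 - z.2.1 * z.1, z.1) : ℝ × ℝ × ℝ) ∈ A} := by
    have : Measurable fun z : ℝ × (ℝ × ℝ) =>
        ((z.2.1, z.2.2 - z.2.1 * z.1, z.1) : ℝ × ℝ × ℝ) := by fun_prop
    exact this hA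
  have h3 : ∀ᵐ v : ℝ, ∀ᵐ y : ℝ × ℝ, ((y.1, y.2 - y.1 * v, v) : ℝ × ℝ × ℝ) ∈ A := by
    filter_upwards [h1] with v hv
    have hm2 : MeasurableSet {y : ℝ × ℝ | ((y.1, y.2 - y.1 * v, v) : ℝ × ℝ × ℝ) ∈ A} := by
      have : Measurable fun y : ℝ × ℝ => ((y.1, y.2 - y.1 * v, v) : ℝ × ℝ × ℝ) := by fun_prop
      exact this hA
    exact (Measure.ae_prod_iff_ae_ae (μ := (volume : Measure ℝ)) (ν := (volume : Measure ℝ))
      hm2).2 hv
  have h4 : ∀ᵐ y : ℝ × ℝ, ∀ᵐ v : ℝ, ((y.1, y.2 - y.1 * v, v) : ℝ × ℝ × ℝ) ∈ A :=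
    (Measure.ae_ae_comm (μ := (volume : Measure ℝ)) (ν := (volume : Measure (ℝ × ℝ)))
      (p := fun v y => ((y.1, y.2 - y.1 * v, v) : ℝ × ℝ × ℝ) ∈ A) hm).1 h3
  exact Measure.ae_ae_of_ae_prod (μ := (volume : Measure ℝ)) (ν := (volume : Measure ℝ)) h4

theorem Hld_point (θ : ℝ) (h0 : 0 ≤ θ) (h1 : θ < 1) (R F W : ℝ≥0∞)
    (h : R = 0 ∨ 1 ≤ F ^ θ * W ^ (1 - θ)) :
    R ≤ F ^ θ * (R ^ (1 / (1 - θ)) * W) ^ (1 - θ) := by
  rcases h with h | h
  · rw [h]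
    exact zero_le
  · have h2 : 0 < 1 - θ := by linarith
    rw [ENNReal.mul_rpow_of_nonneg _ _ h2.le, ← ENNReal.rpow_mul, one_div,
      inv_mul_cancel₀ h2.ne', ENNReal.rpow_one]
    calc R = 1 * R := (one_mul R).symm
      _ ≤ (F ^ θ * W ^ (1 - θ)) * R := by gcongr
      _ = F ^ θ * (R * W ^ (1 - θ)) := by ring

theorem thm_Hld : St_Hld := by
  intro d p hd hp R F W hR hF hW h
  have hd2 : (2 : ℝ) ≤ (d : ℝ) := by exact_mod_cast hd
  have hd0 : (0 : ℝ) < (d : ℝ) := by linarith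
  have hp1 : 1 < p := by
    refine lt_of_le_of_lt ?_ hp
    rw [le_div_iff₀ hd0]
    linarith
  have hdp : (d : ℝ) + 1 < (d : ℝ) * p := by
    rw [div_lt_iff₀ hd0] at hp
    linarith
  have hdp0 : 0 < (d : ℝ) * p := by linarith
  obtain ⟨θ, hθ⟩ : ∃ θ : ℝ, θ = ((d : ℝ) * p - (d : ℝ) + 1) / ((d : ℝ) * p) := ⟨_, rfl⟩
  have hθ1 : ((d : ℝ) - 1) / ((d : ℝ) * p) = 1 - θ := by
    rw [hθ]
    field_simp
    ring
  have hθ0 : 0 ≤ θ := by
    rw [hθ]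
    apply div_nonneg <;> linarith
  have hθ2 : 0 < 1 - θ := by
    rw [← hθ1]
    apply div_pos <;> linarith
  have hθ3 : (d : ℝ) * p / ((d : ℝ) - 1) = 1 / (1 - θ) := by
    rw [← hθ1, one_div_div]
  rw [← hθ, hθ1] at h
  rw [hθ3]
  have hR1 : ∀ t : ℝ, Measurable fun z : ℝ × ℝ => R t z.1 z.2 := fun t => by
    have : Measurable fun z : ℝ × ℝ => ((t, z.1, z.2) : ℝ × ℝ × ℝ) := by fun_prop
    exact hR.comp this
  have hG : Measurable fun z : ℝ × ℝ => F z.1 z.2 ^ θ * W z.1 z.2 ^ (1 - θ) :=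
    (hF.pow_const _).mul (hW.pow_const _)
  -- the exceptional set
  have hA : MeasurableSet {z : ℝ × ℝ × ℝ | R z.1 z.2.1 z.2.2 = 0 ∨
      1 ≤ F z.2.1 z.2.2 ^ θ * W z.2.1 z.2.2 ^ (1 - θ)} := by
    refine MeasurableSet.union (hR (measurableSet_singleton 0)) ?_
    have h1 : Measurable fun z : ℝ × ℝ × ℝ => F z.2.1 z.2.2 ^ θ * W z.2.1 z.2.2 ^ (1 - θ) :=
      hG.comp measurable_snd
    exact measurableSet_le measurable_const h1
  have h2 := Hld_ae _ hA (by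
    filter_upwards [h] with v hv
    filter_upwards [hv] with u hu
    rcases hu with hu | hu
    · filter_upwards [hu] with t ht
      exact Or.inl ht
    · exact Filter.Eventually.of_forall fun t => Or.inr hu)
  filter_upwards [h2] with t ht
  -- measurability for fixed `t`
  have hsh : Measurable fun z : ℝ × ℝ => ((z.1 - t * z.2, z.2) : ℝ × ℝ) := by fun_prop
  have hF2 : Measurable fun z : ℝ × ℝ => F (z.1 - t * z.2) z.2 := hF.comp hsh
  have hV : Measurable fun z : ℝ × ℝ => R t z.1 z.2 ^ (1 / (1 - θ)) * W z.1 z.2 :=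
    ((hR1 t).pow_const _).mul hW
  have hV2 : Measurable fun z : ℝ × ℝ =>
      R t (z.1 - t * z.2) z.2 ^ (1 / (1 - θ)) * W (z.1 - t * z.2) z.2 := hV.comp hsh
  have hT0 : Measurable fun x : ℝ => ∫⁻ v : ℝ, F (x - t * v) v := hF2.lintegral_prod_right'
  have hT1 : Measurable fun x : ℝ =>
      ∫⁻ v : ℝ, R t (x - t * v) v ^ (1 / (1 - θ)) * W (x - t * v) v := hV2.lintegral_prod_right'
  -- Hölder in `v`
  have h3 : ∀ᵐ x : ℝ, (∫⁻ v : ℝ, R t (x - t * v) v) ^ p ≤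
      ((∫⁻ v : ℝ, F (x - t * v) v) ^ ((d : ℝ) * p - (d : ℝ) + 1)) ^ (1 / (d : ℝ)) *
      (∫⁻ v : ℝ, R t (x - t * v) v ^ (1 / (1 - θ)) * W (x - t * v) v) ^
        (((d : ℝ) - 1) / (d : ℝ)) := by
    filter_upwards [ht] with x hx
    have h4 : ∫⁻ v : ℝ, R t (x - t * v) v ≤
        (∫⁻ v : ℝ, F (x - t * v) v) ^ θ *
        (∫⁻ v : ℝ, R t (x - t * v) v ^ (1 / (1 - θ)) * W (x - t * v) v) ^ (1 - θ) := by
      refine (lintegral_mono_ae (g := fun v => F (x - t * v) v ^ θ *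
        (R t (x - t * v) v ^ (1 / (1 - θ)) * W (x - t * v) v) ^ (1 - θ)) ?_).trans ?_
      · filter_upwards [hx] with v hv
        exact Hld_point θ hθ0 (by linarith) _ _ _ hv
      · refine ENNReal.lintegral_mul_norm_pow_le ?_ ?_ hθ0 hθ2.le (by ring)
        · exact (hF2.comp (measurable_const.prodMk measurable_id)).aemeasurable
        · exact (hV2.comp (measurable_const.prodMk measurable_id)).aemeasurable
    have h5 := ENNReal.rpow_le_rpow h4 (by linarith : (0 : ℝ) ≤ p)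
    refine h5.trans (le_of_eq ?_)
    rw [ENNReal.mul_rpow_of_nonneg _ _ (by linarith : (0 : ℝ) ≤ p), ← ENNReal.rpow_mul,
      ← ENNReal.rpow_mul, ← ENNReal.rpow_mul]
    congr 2
    · rw [hθ]
      field_simp
    · rw [← hθ1]
      field_simp
  -- Hölder in `x`
  have h6 : ∫⁻ x : ℝ, (∫⁻ v : ℝ, R t (x - t * v) v) ^ p ≤
      (∫⁻ x : ℝ, (∫⁻ v : ℝ, F (x - t * v) v) ^ ((d : ℝ) * p - (d : ℝ) + 1)) ^ (1 / (d : ℝ)) *
      (∫⁻ x : ℝ, ∫⁻ v : ℝ, R t (x - t * v) v ^ (1 / (1 - θ)) * W (x - t * v) v) ^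
        (((d : ℝ) - 1) / (d : ℝ)) := by
    refine (lintegral_mono_ae h3).trans ?_
    refine ENNReal.lintegral_mul_norm_pow_le (hT0.pow_const _).aemeasurable hT1.aemeasurable
      (by positivity) (div_nonneg (by linarith) hd0.le) ?_
    field_simp
    ring
  -- Tonelli and translation
  have h7 : ∫⁻ x : ℝ, ∫⁻ v : ℝ, R t (x - t * v) v ^ (1 / (1 - θ)) * W (x - t * v) v =
      ∫⁻ v : ℝ, ∫⁻ u : ℝ, R t u v ^ (1 / (1 - θ)) * W u v := by
    rw [lintegral_lintegral_swap hV2.aemeasurable]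
    refine lintegral_congr fun v => ?_
    exact lintegral_sub_right_eq_self (μ := (volume : Measure ℝ))
      (fun u => R t u v ^ (1 / (1 - θ)) * W u v) (t * v)
  rw [← h7]
  exact h6

end Pool.Agent.FTN
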