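import Pool.Agent.FTN.St
import Pool.Agent.FTX.Int

/-!
# FTN, module Hls: the Hardy-Littlewood-Sobolev inequality on the line
-/

set_option autoImplicit false

open MeasureTheory Set
open scoped ENNReal NNReal

namespace Pool.Agent.FTN

open Pool.Agent.FTX

/-- the kernel -/
noncomputable def HlsK (l x : ℝ) : ℝ≥0∞ := ENNReal.ofReal (|x| ^ (-l))

theorem HlsK_meas (l : ℝ) : Measurable (HlsK l) := by
  unfold HlsK
  exact (measurable_id.abs.pow_const _).ennreal_ofReal

theorem Hls_half (l m : ℝ) (hl : l < 1) (hm : 0 < m) :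
    ∫⁻ u in Ioo 0 m, ENNReal.ofReal (u ^ (-l)) = ENNReal.ofReal (m ^ (1 - l) / (1 - l)) := by
  have h1 : IntervalIntegrable (fun u : ℝ => u ^ (-l)) volume 0 m :=
    intervalIntegral.intervalIntegrable_rpow' (by linarith)
  have h2 : IntegrableOn (fun u : ℝ => u ^ (-l)) (Ioo 0 m) :=
    (intervalIntegrable_iff_integrableOn_Ioo_of_le hm.le).1 h1
  rw [← ofReal_integral_eq_lintegral_ofReal h2]
  · rw [← integral_Ioc_eq_integral_Ioo, ← intervalIntegral.integral_of_le hm.le,
      integral_rpow (Or.inl (by linarith))]
    congr 1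
    rw [Real.zero_rpow (by linarith : -l + 1 ≠ 0), sub_zero, neg_add_eq_sub]
  · exact (ae_restrict_iff' measurableSet_Ioo).2
      (Filter.Eventually.of_forall fun u hu => Real.rpow_nonneg hu.1.le _)

theorem Hls_ball (l m : ℝ) (hl0 : 0 < l) (hl : l < 1) (hm : 0 < m) :
    ∫⁻ u : ℝ, (if |u| < m then HlsK l u else 0) ≤
      ENNReal.ofReal (2 * (m ^ (1 - l) / (1 - l))) := by
  set g : ℝ → ℝ≥0∞ := (Ioo 0 m).indicator fun u => ENNReal.ofReal (u ^ (-l)) with hg
  have hgm : Measurable g :=
    ((measurable_id.pow_const _).ennreal_ofReal).indicator measurableSet_Ioo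
  have h1 : ∀ u : ℝ, (if |u| < m then HlsK l u else 0) ≤ g u + g (-u) := by
    intro u
    split_ifs with h
    · rcases lt_trichotomy u 0 with hu | hu | hu
      · have h2 : g (-u) = HlsK l u := by
          rw [abs_of_neg hu] at h
          rw [hg, indicator_of_mem (show -u ∈ Ioo 0 m from ⟨by linarith, h⟩), HlsK,
            abs_of_neg hu]
        rw [h2]
        exact le_add_self
      · have h2 : HlsK l u = 0 := by
          rw [HlsK, hu, abs_zero, Real.zero_rpow (by linarith), ENNReal.ofReal_zero]
        rw [h2]
        exact zero_le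
      · have h2 : g u = HlsK l u := by
          rw [abs_of_pos hu] at h
          rw [hg, indicator_of_mem (show u ∈ Ioo 0 m from ⟨hu, h⟩), HlsK, abs_of_pos hu]
        rw [h2]
        exact le_self_add
    · exact zero_le
  refine (lintegral_mono h1).trans ?_
  rw [lintegral_add_left hgm, lintegral_neg_eq_self, ← two_mul, hg,
    lintegral_indicator measurableSet_Ioo, Hls_half l m hl hm, ENNReal.ofReal_mul (by norm_num)]
  norm_num

theorem Hls_one (l : ℝ) (hl0 : 0 < l) (hl : l < 1) (F : Set ℝ) (v : ℝ) :
    ∫⁻ w in F, HlsK l (v - w) ≤ ENNReal.ofReal (2 / (1 - l) + 1) * volume F ^ (1 - l) := by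
  have hl1 : 0 < 1 - l := by linarith
  rcases eq_or_ne (volume F) 0 with h0 | h0
  · rw [setLIntegral_measure_zero F _ h0]
    exact zero_le
  rcases eq_or_ne (volume F) ⊤ with ht | ht
  · rw [ht, ENNReal.top_rpow_of_pos hl1, ENNReal.mul_top]
    · exact le_top
    · rw [ne_eq, ENNReal.ofReal_eq_zero, not_le]
      positivity
  have hm : 0 < (volume F).toReal := ENNReal.toReal_pos h0 ht
  have hF : volume F = ENNReal.ofReal (volume F).toReal := (ENNReal.ofReal_toReal ht).symm
  generalize (volume F).toReal = m at hm hF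
  have h1 : ∀ w : ℝ, HlsK l (v - w) ≤ (if |v - w| < m then HlsK l (v - w) else 0) +
      ENNReal.ofReal (m ^ (-l)) := by
    intro w
    split_ifs with h
    · exact le_self_add
    · rw [zero_add, HlsK]
      exact ENNReal.ofReal_le_ofReal
        (Real.rpow_le_rpow_of_nonpos hm (not_lt.1 h) (by linarith))
  have hmeas : Measurable fun w : ℝ => (if |v - w| < m then HlsK l (v - w) else 0) := by
    refine Measurable.ite ?_ ((HlsK_meas l).comp (measurable_const.sub measurable_id))
      measurable_const
    exact measurableSet_lt (measurable_const.sub measurable_id).abs measurable_const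
  calc ∫⁻ w in F, HlsK l (v - w)
      ≤ ∫⁻ w in F, ((if |v - w| < m then HlsK l (v - w) else 0) + ENNReal.ofReal (m ^ (-l))) :=
        lintegral_mono h1
    _ = (∫⁻ w in F, (if |v - w| < m then HlsK l (v - w) else 0)) +
        ∫⁻ w in F, ENNReal.ofReal (m ^ (-l)) := lintegral_add_left hmeas _
    _ ≤ (∫⁻ w : ℝ, (if |v - w| < m then HlsK l (v - w) else 0)) +
        ENNReal.ofReal (m ^ (-l)) * volume F := by
        rw [setLIntegral_const]
        gcongr
        exact Measure.restrict_le_self
    _ ≤ ENNReal.ofReal (2 * (m ^ (1 - l) / (1 - l))) +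
        ENNReal.ofReal (m ^ (-l)) * ENNReal.ofReal m := by
        have h3 := lintegral_sub_left_eq_self (μ := (volume : Measure ℝ))
          (fun u : ℝ => (if |u| < m then HlsK l u else 0)) v
        rw [h3, hF]
        gcongr
        exact Hls_ball l m hl0 hl hm
    _ = ENNReal.ofReal (2 / (1 - l) + 1) * volume F ^ (1 - l) := by
        rw [hF, ENNReal.ofReal_rpow_of_pos hm, ← ENNReal.ofReal_mul (by positivity),
          ← ENNReal.ofReal_mul (by positivity), ← ENNReal.ofReal_add (by positivity)
          (by positivity)]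
        congr 1
        have h4 : m ^ (-l) * m = m ^ (1 - l) := by
          rw [← Real.rpow_add_one hm.ne', neg_add_eq_sub]
        rw [h4]
        field_simp

/-- the main estimate for one `v` -/
theorem Hls_inner (l : ℝ) (hl0 : 0 < l) (hl : l < 1) (M : ℝ → ℝ≥0∞) (hM : Measurable M) (v : ℝ) :
    ∫⁻ w : ℝ, (if M w ≤ M v then M v * M w * HlsK l (v - w) else 0) ≤
      M v * (ENNReal.ofReal (2 / (1 - l) + 1) *
        ((∫⁻ r, wdis volume M (2 / (2 - l)) r) ^ (1 - l) *
          (ENNReal.ofReal (2 - l) * M v ^ (1 / (2 - l))) ^ l)) := by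
  have hl1 : 0 < 1 - l := by linarith
  have hl2 : 0 < 2 - l := by linarith
  set q : ℝ → ℝ → ℝ≥0∞ := fun w r =>
    if ENNReal.ofReal (Real.exp r) < M v ∧ ENNReal.ofReal (Real.exp r) < M w then
      ENNReal.ofReal (Real.exp r) * HlsK l (v - w) else 0 with hq
  have hexp : Measurable fun r : ℝ => ENNReal.ofReal (Real.exp r) :=
    Real.measurable_exp.ennreal_ofReal
  have hqm : Measurable (Function.uncurry q) := by
    refine Measurable.ite ?_ ?_ measurable_const
    · exact (measurableSet_lt (hexp.comp measurable_snd) measurable_const).inter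
        (measurableSet_lt (hexp.comp measurable_snd) (hM.comp measurable_fst))
    · exact (hexp.comp measurable_snd).mul
        ((HlsK_meas l).comp (measurable_const.sub measurable_fst))
  have h1 : ∀ w, (if M w ≤ M v then M v * M w * HlsK l (v - w) else 0) ≤
      M v * ∫⁻ r, q w r := by
    intro w
    split_ifs with h
    · rw [mul_assoc]
      gcongr
      calc M w * HlsK l (v - w) ≤ (∫⁻ s in {s : ℝ | ENNReal.ofReal (Real.exp s) < M w},
            ENNReal.ofReal (Real.exp s)) * HlsK l (v - w) := by
            gcongr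
            exact layer_le (M w)
        _ = ∫⁻ s in {s : ℝ | ENNReal.ofReal (Real.exp s) < M w},
            ENNReal.ofReal (Real.exp s) * HlsK l (v - w) := (lintegral_mul_const _ hexp).symm
        _ = ∫⁻ s, {s : ℝ | ENNReal.ofReal (Real.exp s) < M w}.indicator (fun s =>
            ENNReal.ofReal (Real.exp s) * HlsK l (v - w)) s :=
            (lintegral_indicator (measurableSet_lt hexp measurable_const) _).symm
        _ ≤ ∫⁻ r, q w r := by
            refine lintegral_mono fun s => ?_
            by_cases hs : ENNReal.ofReal (Real.exp s) < M w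
            · rw [indicator_of_mem (show s ∈ {s : ℝ | ENNReal.ofReal (Real.exp s) < M w} from hs),
                hq]
              beta_reduce
              rw [if_pos ⟨lt_of_lt_of_le hs h, hs⟩]
            · rw [indicator_of_notMem
                (show s ∉ {s : ℝ | ENNReal.ofReal (Real.exp s) < M w} from hs)]
              exact zero_le
    · exact zero_le
  have h2 : ∀ r, ∫⁻ w, q w r ≤ ENNReal.ofReal (2 / (1 - l) + 1) *
      ((wdis volume M (2 / (2 - l)) r) ^ (1 - l) *
        {s : ℝ | ENNReal.ofReal (Real.exp s) < M v}.indicator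
          (fun s => ENNReal.ofReal (Real.exp (l / (2 - l) * s))) r) := by
    intro r
    by_cases hr : ENNReal.ofReal (Real.exp r) < M v
    · rw [indicator_of_mem (show r ∈ {s : ℝ | ENNReal.ofReal (Real.exp s) < M v} from hr)]
      have h3 : ∀ w, q w r = {w : ℝ | ENNReal.ofReal (Real.exp r) < M w}.indicator
          (fun w => ENNReal.ofReal (Real.exp r) * HlsK l (v - w)) w := by
        intro w
        rw [hq]
        beta_reduce
        by_cases hw : ENNReal.ofReal (Real.exp r) < M w
        · rw [if_pos ⟨hr, hw⟩,
            indicator_of_mem (show w ∈ {w : ℝ | ENNReal.ofReal (Real.exp r) < M w} from hw)]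
        · rw [if_neg fun h => hw h.2, indicator_of_notMem
            (show w ∉ {w : ℝ | ENNReal.ofReal (Real.exp r) < M w} from hw)]
      simp only [h3]
      have hKv : Measurable fun w : ℝ => HlsK l (v - w) :=
        (HlsK_meas l).comp (measurable_const.sub measurable_id)
      rw [lintegral_indicator (measurableSet_lt measurable_const hM),
        lintegral_const_mul _ hKv]
      have h4 := Hls_one l hl0 hl {w : ℝ | ENNReal.ofReal (Real.exp r) < M w} v
      calc ENNReal.ofReal (Real.exp r) *
            ∫⁻ w in {w : ℝ | ENNReal.ofReal (Real.exp r) < M w}, HlsK l (v - w)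
          ≤ ENNReal.ofReal (Real.exp r) * (ENNReal.ofReal (2 / (1 - l) + 1) *
            volume {w : ℝ | ENNReal.ofReal (Real.exp r) < M w} ^ (1 - l)) := by gcongr
        _ = _ := by
            have h5 : wdis volume M (2 / (2 - l)) r ^ (1 - l) *
                ENNReal.ofReal (Real.exp (l / (2 - l) * r)) =
                volume {w : ℝ | ENNReal.ofReal (Real.exp r) < M w} ^ (1 - l) *
                  ENNReal.ofReal (Real.exp r) := by
              unfold wdis dis
              rw [ENNReal.mul_rpow_of_nonneg _ _ hl1.le, mul_assoc,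
                ENNReal.ofReal_rpow_of_pos (Real.exp_pos _), ← Real.exp_mul,
                ← ENNReal.ofReal_mul (Real.exp_pos _).le, ← Real.exp_add]
              congr 3
              field_simp
              ring
            rw [h5]
            ring
    · have h3 : ∀ w, q w r = 0 := by
        intro w
        rw [hq]
        beta_reduce
        rw [if_neg fun h => hr h.1]
      simp only [h3, lintegral_zero]
      exact zero_le
  have hq1 : Measurable fun w => ∫⁻ r, q w r := hqm.lintegral_prod_right'
  calc ∫⁻ w : ℝ, (if M w ≤ M v then M v * M w * HlsK l (v - w) else 0)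
      ≤ ∫⁻ w, M v * ∫⁻ r, q w r := lintegral_mono h1
    _ = M v * ∫⁻ w, ∫⁻ r, q w r := lintegral_const_mul _ hq1
    _ = M v * ∫⁻ r, ∫⁻ w, q w r := by rw [lintegral_lintegral_swap hqm.aemeasurable]
    _ ≤ M v * ∫⁻ r, ENNReal.ofReal (2 / (1 - l) + 1) *
        ((wdis volume M (2 / (2 - l)) r) ^ (1 - l) *
        {s : ℝ | ENNReal.ofReal (Real.exp s) < M v}.indicator
          (fun s => ENNReal.ofReal (Real.exp (l / (2 - l) * s))) r) := by
        gcongr with r
        exact h2 r
    _ ≤ _ := by
        have hm1 : Measurable fun r => (wdis volume M (2 / (2 - l)) r) ^ (1 - l) :=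
          (measurable_wdis volume M (2 / (2 - l))).pow_const _
        have hm2 : Measurable ({s : ℝ | ENNReal.ofReal (Real.exp s) < M v}.indicator
            fun s => ENNReal.ofReal (Real.exp (l / (2 - l) * s))) :=
          (Real.measurable_exp.comp (measurable_const.mul measurable_id)).ennreal_ofReal.indicator
            (measurableSet_lt hexp measurable_const)
        have hm12 : Measurable fun r => (wdis volume M (2 / (2 - l)) r) ^ (1 - l) *
            {s : ℝ | ENNReal.ofReal (Real.exp s) < M v}.indicator
              (fun s => ENNReal.ofReal (Real.exp (l / (2 - l) * s))) r := hm1.mul hm2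
        rw [lintegral_const_mul _ hm12]
        gcongr
        have hconj : (1 / (1 - l)).HolderConjugate (1 / l) := by
          rw [Real.holderConjugate_iff]
          constructor
          · rw [lt_div_iff₀ hl1]
            linarith
          · field_simp
            ring
        have h6 := ENNReal.lintegral_mul_le_Lp_mul_Lq volume hconj hm1.aemeasurable
          hm2.aemeasurable
        refine h6.trans ?_
        have e1 : ∀ r, (wdis volume M (2 / (2 - l)) r ^ (1 - l)) ^ (1 / (1 - l)) =
            wdis volume M (2 / (2 - l)) r := by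
          intro r
          rw [← ENNReal.rpow_mul, mul_one_div_cancel hl1.ne', ENNReal.rpow_one]
        have e2 : ∀ r, ({s : ℝ | ENNReal.ofReal (Real.exp s) < M v}.indicator
            (fun s => ENNReal.ofReal (Real.exp (l / (2 - l) * s))) r) ^ (1 / l) =
            {s : ℝ | ENNReal.ofReal (Real.exp s) < M v}.indicator
              (fun s => ENNReal.ofReal (Real.exp (1 / (2 - l) * s))) r := by
          intro r
          by_cases hr : ENNReal.ofReal (Real.exp r) < M v
          · rw [indicator_of_mem (show r ∈ {s : ℝ | ENNReal.ofReal (Real.exp s) < M v} from hr),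
              indicator_of_mem (show r ∈ {s : ℝ | ENNReal.ofReal (Real.exp s) < M v} from hr),
              ENNReal.ofReal_rpow_of_pos (Real.exp_pos _), ← Real.exp_mul]
            congr 2
            field_simp
          · rw [indicator_of_notMem
                (show r ∉ {s : ℝ | ENNReal.ofReal (Real.exp s) < M v} from hr),
              indicator_of_notMem
                (show r ∉ {s : ℝ | ENNReal.ofReal (Real.exp s) < M v} from hr),
              ENNReal.zero_rpow_of_pos (by positivity)]
        simp only [e1, e2, one_div_one_div]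
        rw [lintegral_indicator (measurableSet_lt hexp measurable_const)]
        gcongr
        have h7 := layer_pow_le (M v) (1 / (2 - l)) (by positivity)
        rwa [one_div_one_div] at h7

theorem thm_Hls : St_Hls := by
  intro l hl0 hl
  have hl1 : 0 < 1 - l := by linarith
  have hl2 : 0 < 2 - l := by linarith
  set c : ℝ≥0∞ := 2 * (ENNReal.ofReal (2 / (1 - l) + 1) *
    (ENNReal.ofReal (1 / (2 / (2 - l))) ^ (1 - l) * ENNReal.ofReal (2 - l) ^ l)) with hc
  have hctop : c ≠ ⊤ := by
    rw [hc]
    refine ENNReal.mul_ne_top (by norm_num) (ENNReal.mul_ne_top ENNReal.ofReal_ne_top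
      (ENNReal.mul_ne_top ?_ ?_))
    · exact ENNReal.rpow_ne_top_of_nonneg hl1.le ENNReal.ofReal_ne_top
    · exact ENNReal.rpow_ne_top_of_nonneg hl0.le ENNReal.ofReal_ne_top
  refine ⟨c.toNNReal, fun M hM => ?_⟩
  rw [ENNReal.coe_toNNReal hctop]
  set P : ℝ → ℝ → ℝ≥0∞ := fun v w =>
    if M w ≤ M v then M v * M w * HlsK l (v - w) else 0 with hP
  have hPm : Measurable (Function.uncurry P) := by
    refine Measurable.ite (measurableSet_le (hM.comp measurable_snd) (hM.comp measurable_fst)) ?_
      measurable_const
    exact ((hM.comp measurable_fst).mul (hM.comp measurable_snd)).mul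
      ((HlsK_meas l).comp (measurable_fst.sub measurable_snd))
  have h1 : ∀ v w, M v * M w * ENNReal.ofReal (|v - w| ^ (-l)) ≤ P v w + P w v := by
    intro v w
    rcases le_total (M w) (M v) with h | h
    · have : P v w = M v * M w * ENNReal.ofReal (|v - w| ^ (-l)) := by
        rw [hP]
        beta_reduce
        rw [if_pos h, HlsK]
      rw [this]
      exact le_self_add
    · have : P w v = M v * M w * ENNReal.ofReal (|v - w| ^ (-l)) := by
        rw [hP]
        beta_reduce
        rw [if_pos h, HlsK, abs_sub_comm, mul_comm (M w)]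
      rw [this]
      exact le_add_self
  set I : ℝ≥0∞ := ∫⁻ v : ℝ, M v ^ (2 / (2 - l)) with hI
  have hA := lintegral_wdis_le volume M hM (2 / (2 - l)) (by positivity)
  have h2 : ∫⁻ v, ∫⁻ w, P v w ≤ (ENNReal.ofReal (2 / (1 - l) + 1) *
      (ENNReal.ofReal (1 / (2 / (2 - l))) ^ (1 - l) * ENNReal.ofReal (2 - l) ^ l)) *
      I ^ (2 - l) := by
    calc ∫⁻ v, ∫⁻ w, P v w
        ≤ ∫⁻ v, (ENNReal.ofReal (2 / (1 - l) + 1) *
            ((ENNReal.ofReal (1 / (2 / (2 - l))) * I) ^ (1 - l) * ENNReal.ofReal (2 - l) ^ l)) *
            M v ^ (2 / (2 - l)) := by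
          refine lintegral_mono fun v => (Hls_inner l hl0 hl M hM v).trans ?_
          calc _ ≤ M v * (ENNReal.ofReal (2 / (1 - l) + 1) *
                ((ENNReal.ofReal (1 / (2 / (2 - l))) * I) ^ (1 - l) *
                (ENNReal.ofReal (2 - l) * M v ^ (1 / (2 - l))) ^ l)) := by gcongr
            _ = _ := by
                rw [ENNReal.mul_rpow_of_nonneg _ _ hl0.le, ← ENNReal.rpow_mul]
                have e1 : 2 / (2 - l) = 1 + 1 / (2 - l) * l := by
                  field_simp
                  ring
                rw [e1, ENNReal.rpow_add_of_nonneg _ _ zero_le_one (by positivity),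
                  ENNReal.rpow_one]
                ring
      _ = (ENNReal.ofReal (2 / (1 - l) + 1) *
            ((ENNReal.ofReal (1 / (2 / (2 - l))) * I) ^ (1 - l) * ENNReal.ofReal (2 - l) ^ l)) *
            I := lintegral_const_mul _ (hM.pow_const _)
      _ = _ := by
          have e2 : I ^ (2 - l) = I ^ (1 - l) * I := by
            rw [show 2 - l = (1 - l) + 1 by ring,
              ENNReal.rpow_add_of_nonneg _ _ hl1.le zero_le_one, ENNReal.rpow_one]
          rw [e2, ENNReal.mul_rpow_of_nonneg _ _ hl1.le]
          ring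
  calc ∫⁻ v : ℝ, ∫⁻ w : ℝ, M v * M w * ENNReal.ofReal (|v - w| ^ (-l))
      ≤ ∫⁻ v : ℝ, ∫⁻ w : ℝ, (P v w + P w v) :=
        lintegral_mono fun v => lintegral_mono fun w => h1 v w
    _ = ∫⁻ v : ℝ, ((∫⁻ w : ℝ, P v w) + ∫⁻ w : ℝ, P w v) := by
        refine lintegral_congr fun v => ?_
        exact lintegral_add_left (hPm.comp (measurable_const.prodMk measurable_id)) _
    _ = (∫⁻ v : ℝ, ∫⁻ w : ℝ, P v w) + ∫⁻ v : ℝ, ∫⁻ w : ℝ, P w v :=
        lintegral_add_left hPm.lintegral_prod_right' _
    _ = 2 * ∫⁻ v : ℝ, ∫⁻ w : ℝ, P v w := by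
        rw [two_mul, lintegral_lintegral_swap hPm.aemeasurable]
    _ ≤ 2 * ((ENNReal.ofReal (2 / (1 - l) + 1) *
      (ENNReal.ofReal (1 / (2 / (2 - l))) ^ (1 - l) * ENNReal.ofReal (2 - l) ^ l)) *
      I ^ (2 - l)) := by gcongr
    _ = c * I ^ (2 - l) := by
        rw [hc]
        ring

end Pool.Agent.FTN
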