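import Pool.Agent.FTN.St

/-!
# Measurability of the interleaved norm of a family
-/

set_option autoImplicit false

open MeasureTheory Set
open scoped ENNReal NNReal

namespace Pool.Agent.FTN

private theorem Ims_cons (k : ℕ) :
    Measurable (fun p : ℝ × (Fin k → ℝ) => (Fin.cons p.1 p.2 : Fin (k + 1) → ℝ)) := by
  refine measurable_pi_iff.2 ?_
  intro i
  refine Fin.cases ?_ (fun j => ?_) i
  · simp only [Fin.cons_zero]
    exact measurable_fst
  · simp only [Fin.cons_succ]
    exact (measurable_pi_apply j).comp measurable_snd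

theorem thm_Ims : St_Ims := by
  intro a b k
  induction k with
  | zero =>
    intro Z _ f hf
    exact hf.comp (measurable_id.prodMk
      (measurable_const (a := ((0 : Fin 0 → ℝ), (0 : Fin 0 → ℝ)))))
  | succ k ih =>
    intro Z _ f hf
    have key : Measurable (fun q : (Z × ℝ) × ℝ =>
        inorm a b k (fun y w => f q.1.1 (Fin.cons q.2 y) (Fin.cons q.1.2 w))) := by
      refine ih ((Z × ℝ) × ℝ) (fun q y w => f q.1.1 (Fin.cons q.2 y) (Fin.cons q.1.2 w)) ?_
      have h1 : Measurable (fun z : ((Z × ℝ) × ℝ) × (Fin k → ℝ) × (Fin k → ℝ) => z.1.1.1) :=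
        measurable_fst.comp (measurable_fst.comp measurable_fst)
      have h2 : Measurable (fun z : ((Z × ℝ) × ℝ) × (Fin k → ℝ) × (Fin k → ℝ) =>
          (Fin.cons z.1.2 z.2.1 : Fin (k + 1) → ℝ)) :=
        (Ims_cons k).comp ((measurable_snd.comp measurable_fst).prodMk
          (measurable_fst.comp measurable_snd))
      have h3 : Measurable (fun z : ((Z × ℝ) × ℝ) × (Fin k → ℝ) × (Fin k → ℝ) =>
          (Fin.cons z.1.1.2 z.2.2 : Fin (k + 1) → ℝ)) :=
        (Ims_cons k).comp ((measurable_snd.comp (measurable_fst.comp measurable_fst)).prodMk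
          (measurable_snd.comp measurable_snd))
      exact hf.comp (h1.prodMk (h2.prodMk h3))
    have h1 : Measurable (fun q : Z × ℝ => ∫⁻ x : ℝ,
        inorm a b k (fun y w => f q.1 (Fin.cons x y) (Fin.cons q.2 w)) ^ b) :=
      (key.pow_const b).lintegral_prod_right'
    exact ((h1.pow_const (a / b)).lintegral_prod_right').pow_const (1 / a)

end Pool.Agent.FTN
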