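import Pool.Agent.FTN.St

/-!
# Free transport, interleaved norms: induction over the coordinates
-/

set_option autoImplicit false

open MeasureTheory Set
open scoped ENNReal NNReal

namespace Pool.Agent.FTN

/-- the exponents -/
private theorem Ind_exp {d : ℕ} {p : ℝ} (hd : 1 ≤ d) (hp : ((d : ℝ) + 1) / (d : ℝ) < p) :
    0 < (d : ℝ) ∧ (d : ℝ) + 1 < d * p ∧ 1 < p := by
  have hd0 : (0 : ℝ) < d := by exact_mod_cast hd
  have h3 : ((d : ℝ) + 1) / d * d < p * d := mul_lt_mul_of_pos_right hp hd0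
  rw [div_mul_cancel₀ _ hd0.ne'] at h3
  refine ⟨hd0, by linarith, ?_⟩
  have h4 : (1 : ℝ) < ((d : ℝ) + 1) / d := by
    rw [lt_div_iff₀ hd0]; linarith
  exact h4.trans hp

private theorem Ind_cons (m : ℕ) :
    Measurable (fun z : ℝ × (Fin m → ℝ) => (Fin.cons z.1 z.2 : Fin (m + 1) → ℝ)) := by
  refine measurable_pi_iff.2 fun i => ?_
  refine Fin.cases ?_ (fun j => ?_) i
  · simp only [Fin.cons_zero]
    exact measurable_fst
  · simp only [Fin.cons_succ]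
    exact (measurable_pi_apply j).comp measurable_snd

private theorem Ind_int (m : ℕ) (g : (Fin (m + 1) → ℝ) → ℝ≥0∞) (hg : Measurable g) :
    ∫⁻ x : Fin (m + 1) → ℝ, g x = ∫⁻ x : ℝ, ∫⁻ y : Fin m → ℝ, g (Fin.cons x y) := by
  have hp := (volume_preserving_piFinSuccAbove (fun _ : Fin (m + 1) => ℝ) 0).symm
  have h1 := hp.lintegral_comp_emb
    (MeasurableEquiv.piFinSuccAbove (fun _ : Fin (m + 1) => ℝ) 0).symm.measurableEmbedding g
  rw [← h1]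
  have h2 : ∀ z : ℝ × (Fin m → ℝ),
      (MeasurableEquiv.piFinSuccAbove (fun _ : Fin (m + 1) => ℝ) 0).symm z =
        (Fin.cons z.1 z.2 : Fin (m + 1) → ℝ) := fun z => Fin.insertNth_zero' z.1 z.2
  simp only [h2]
  rw [Measure.volume_eq_prod]
  exact lintegral_prod _ (hg.comp (Ind_cons m)).aemeasurable

private theorem Ind_sub (m : ℕ) (x v t : ℝ) (y w : Fin m → ℝ) :
    (Fin.cons x y : Fin (m + 1) → ℝ) - t • (Fin.cons v w : Fin (m + 1) → ℝ) =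
      Fin.cons (x - t * v) (y - t • w) := by
  funext i
  refine Fin.cases ?_ (fun j => ?_) i
  · simp
  · simp

/-- average over the remaining velocities -/
private noncomputable def IndS (m : ℕ) (f : (Fin (m + 1) → ℝ) → (Fin (m + 1) → ℝ) → ℝ≥0∞)
    (t : ℝ) (y : Fin m → ℝ) (u v : ℝ) : ℝ≥0∞ :=
  ∫⁻ w : Fin m → ℝ, f (Fin.cons u (y - t • w)) (Fin.cons v w)

private theorem Ind_meas_f (m : ℕ) (f : (Fin (m + 1) → ℝ) → (Fin (m + 1) → ℝ) → ℝ≥0∞)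
    (hf : Measurable (Function.uncurry f)) {Z : Type} [MeasurableSpace Z]
    (u v : Z → ℝ) (y w : Z → (Fin m → ℝ)) (hu : Measurable u) (hv : Measurable v)
    (hy : Measurable y) (hw : Measurable w) :
    Measurable fun z => f (Fin.cons (u z) (y z)) (Fin.cons (v z) (w z)) := by
  have h1 : Measurable fun z => (Fin.cons (u z) (y z) : Fin (m + 1) → ℝ) :=
    (Ind_cons m).comp (hu.prodMk hy)
  have h2 : Measurable fun z => (Fin.cons (v z) (w z) : Fin (m + 1) → ℝ) :=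
    (Ind_cons m).comp (hv.prodMk hw)
  exact hf.comp (h1.prodMk h2)

private theorem Ind_meas_S (m : ℕ) (f : (Fin (m + 1) → ℝ) → (Fin (m + 1) → ℝ) → ℝ≥0∞)
    (hf : Measurable (Function.uncurry f)) {Z : Type} [MeasurableSpace Z]
    (t u v : Z → ℝ) (y : Z → (Fin m → ℝ)) (ht : Measurable t) (hu : Measurable u)
    (hv : Measurable v) (hy : Measurable y) :
    Measurable fun z => IndS m f (t z) (y z) (u z) (v z) := by
  unfold IndS
  refine Measurable.lintegral_prod_right' (f := fun q : Z × (Fin m → ℝ) =>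
    f (Fin.cons (u q.1) (y q.1 - t q.1 • q.2)) (Fin.cons (v q.1) q.2)) ?_
  exact Ind_meas_f m f hf _ _ _ _ (hu.comp measurable_fst) (hv.comp measurable_fst)
    ((hy.comp measurable_fst).sub ((ht.comp measurable_fst).smul measurable_snd)) measurable_snd

/-- the norm in the remaining variables -/
private noncomputable def IndR (m : ℕ) (p : ℝ)
    (f : (Fin (m + 1) → ℝ) → (Fin (m + 1) → ℝ) → ℝ≥0∞) (t u v : ℝ) : ℝ≥0∞ :=
  (∫⁻ y : Fin m → ℝ, IndS m f t y u v ^ p) ^ (1 / p)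

private theorem Ind_meas_R (m : ℕ) (p : ℝ)
    (f : (Fin (m + 1) → ℝ) → (Fin (m + 1) → ℝ) → ℝ≥0∞) (hf : Measurable (Function.uncurry f)) :
    Measurable fun z : ℝ × ℝ × ℝ => IndR m p f z.1 z.2.1 z.2.2 := by
  unfold IndR
  refine Measurable.pow_const ?_ _
  refine Measurable.lintegral_prod_right' (f := fun q : (ℝ × ℝ × ℝ) × (Fin m → ℝ) =>
    IndS m f q.1.1 q.2 q.1.2.1 q.1.2.2 ^ p) ?_
  refine Measurable.pow_const ?_ _
  exact Ind_meas_S m f hf _ _ _ _ (by fun_prop) (by fun_prop) (by fun_prop) (by fun_prop)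

private theorem Ind_rho (m : ℕ) (p : ℝ) (f : (Fin (m + 1) → ℝ) → (Fin (m + 1) → ℝ) → ℝ≥0∞)
    (hf : Measurable (Function.uncurry f)) (t : ℝ) :
    ∫⁻ x : Fin (m + 1) → ℝ, (∫⁻ v : Fin (m + 1) → ℝ, f (x - t • v) v) ^ p =
      ∫⁻ x : ℝ, ∫⁻ y : Fin m → ℝ, (∫⁻ v : ℝ, IndS m f t y (x - t * v) v) ^ p := by
  have hm : Measurable fun q : (Fin (m + 1) → ℝ) × (Fin (m + 1) → ℝ) => f (q.1 - t • q.2) q.2 :=
    hf.comp ((measurable_fst.sub (measurable_snd.const_smul t)).prodMk measurable_snd)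
  rw [Ind_int m _ (Measurable.pow_const (Measurable.lintegral_prod_right' hm) _)]
  refine lintegral_congr fun x => lintegral_congr fun y => ?_
  congr 1
  have h3 : Measurable fun V : Fin (m + 1) → ℝ =>
      f ((Fin.cons x y : Fin (m + 1) → ℝ) - t • V) V :=
    hm.comp (measurable_const.prodMk measurable_id)
  refine (Ind_int m _ h3).trans ?_
  refine lintegral_congr fun v => ?_
  unfold IndS
  refine lintegral_congr fun w => ?_
  rw [Ind_sub]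

private theorem Ind_zero (g : (Fin 0 → ℝ) → ℝ≥0∞) : ∫⁻ w : Fin 0 → ℝ, g w = g 0 := by
  rw [lintegral_unique]
  have h1 : (volume : Measure (Fin 0 → ℝ)) univ = 1 := by
    rw [volume_pi, Measure.pi_univ]
    simp
  rw [h1, mul_one]
  congr 1
  exact Subsingleton.elim _ _

private theorem Ind_inorm_zero (a b : ℝ) (f : (Fin 0 → ℝ) → (Fin 0 → ℝ) → ℝ≥0∞) :
    inorm a b 0 f = f 0 0 := rfl

private theorem Ind_inorm_succ (a b : ℝ) (m : ℕ)
    (f : (Fin (m + 1) → ℝ) → (Fin (m + 1) → ℝ) → ℝ≥0∞) :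
    inorm a b (m + 1) f = (∫⁻ v : ℝ, (∫⁻ x : ℝ,
      inorm a b m (fun y w => f (Fin.cons x y) (Fin.cons v w)) ^ b) ^ (a / b)) ^ (1 / a) := rfl

private theorem Ind_base (hB : St_Bas) (d : ℕ) (p : ℝ) (hd : 1 ≤ d)
    (hp : ((d : ℝ) + 1) / (d : ℝ) < p) :
    ∃ C : ℝ≥0, ∀ f : (Fin 1 → ℝ) → (Fin 1 → ℝ) → ℝ≥0∞, Measurable (Function.uncurry f) →
    ∫⁻ t : ℝ, (∫⁻ x : Fin 1 → ℝ, (∫⁻ v : Fin 1 → ℝ, f (x - t • v) v) ^ p) ^
        ((d : ℝ) / ((1 : ℕ) : ℝ)) ≤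
      (C : ℝ≥0∞) * inorm ((d : ℝ) * p / ((d : ℝ) * p - 1)) ((d : ℝ) * p / ((d : ℝ) + 1)) 1 f ^
        ((d : ℝ) * p / ((1 : ℕ) : ℝ)) := by
  obtain ⟨hd0, hdp, hp1⟩ := Ind_exp hd hp
  obtain ⟨C, hC⟩ := hB d p hd hp
  refine ⟨C, fun f hf => ?_⟩
  set Φ : ℝ → ℝ → ℝ≥0∞ := fun u v => f (Fin.cons u (0 : Fin 0 → ℝ)) (Fin.cons v (0 : Fin 0 → ℝ))
    with hΦ
  have hΦm : Measurable (Function.uncurry Φ) :=
    Ind_meas_f 0 f hf (fun z : ℝ × ℝ => z.1) (fun z => z.2) (fun _ => 0) (fun _ => 0)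
      measurable_fst measurable_snd measurable_const measurable_const
  have h1 : ∀ t : ℝ, ∫⁻ x : Fin 1 → ℝ, (∫⁻ v : Fin 1 → ℝ, f (x - t • v) v) ^ p =
      ∫⁻ x : ℝ, (∫⁻ v : ℝ, Φ (x - t * v) v) ^ p := by
    intro t
    rw [Ind_rho 0 p f hf t]
    refine lintegral_congr fun x => ?_
    rw [Ind_zero]
    congr 1
    refine lintegral_congr fun v => ?_
    unfold IndS
    rw [Ind_zero]
    simp only [hΦ, smul_zero, sub_zero]
  have h2 := hC Φ hΦm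
  simp only [h1]
  rw [Nat.cast_one, div_one, div_one]
  refine h2.trans (le_of_eq ?_)
  rw [Ind_inorm_succ]
  simp only [Ind_inorm_zero]
  rw [← ENNReal.rpow_mul]
  have e1 : (d : ℝ) * p / ((d : ℝ) * p - 1) / ((d : ℝ) * p / ((d : ℝ) + 1)) =
      ((d : ℝ) + 1) / ((d : ℝ) * p - 1) := by
    have h3 : (d : ℝ) * p - 1 ≠ 0 := by linarith
    have h4 : (d : ℝ) * p ≠ 0 := by linarith
    have h5 : (d : ℝ) + 1 ≠ 0 := by linarith
    field_simp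
  have e2 : 1 / ((d : ℝ) * p / ((d : ℝ) * p - 1)) * ((d : ℝ) * p) = (d : ℝ) * p - 1 := by
    have h3 : (d : ℝ) * p - 1 ≠ 0 := by linarith
    have h4 : (d : ℝ) * p ≠ 0 := by linarith
    field_simp
  rw [e1, e2]

private theorem Ind_step (hM : St_Mnk) (hS : St_Stp) (d m : ℕ) (p : ℝ) (hm : 1 ≤ m)
    (hmd : m + 1 ≤ d) (hp : ((d : ℝ) + 1) / (d : ℝ) < p)
    (ih : ∃ C : ℝ≥0, ∀ f : (Fin m → ℝ) → (Fin m → ℝ) → ℝ≥0∞, Measurable (Function.uncurry f) →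
    ∫⁻ t : ℝ, (∫⁻ x : Fin m → ℝ, (∫⁻ v : Fin m → ℝ, f (x - t • v) v) ^ p) ^
        ((d : ℝ) / (m : ℝ)) ≤
      (C : ℝ≥0∞) * inorm ((d : ℝ) * p / ((d : ℝ) * p - 1)) ((d : ℝ) * p / ((d : ℝ) + 1)) m f ^
        ((d : ℝ) * p / (m : ℝ))) :
    ∃ C : ℝ≥0, ∀ f : (Fin (m + 1) → ℝ) → (Fin (m + 1) → ℝ) → ℝ≥0∞,
      Measurable (Function.uncurry f) →
    ∫⁻ t : ℝ, (∫⁻ x : Fin (m + 1) → ℝ, (∫⁻ v : Fin (m + 1) → ℝ, f (x - t • v) v) ^ p) ^
        ((d : ℝ) / ((m + 1 : ℕ) : ℝ)) ≤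
      (C : ℝ≥0∞) * inorm ((d : ℝ) * p / ((d : ℝ) * p - 1)) ((d : ℝ) * p / ((d : ℝ) + 1)) (m + 1) f ^
        ((d : ℝ) * p / ((m + 1 : ℕ) : ℝ)) := by
  obtain ⟨hd0, hdp, hp1⟩ := Ind_exp (by omega : 1 ≤ d) hp
  have hm0 : (0 : ℝ) < m := by exact_mod_cast hm
  have hm1 : (0 : ℝ) < (m : ℝ) + 1 := by linarith
  have hq0 : 0 < (d : ℝ) * p - 1 := by linarith
  have hdp0 : 0 < (d : ℝ) * p := by linarith
  have hd1 : 0 < (d : ℝ) + 1 := by linarith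
  obtain ⟨C1, hC1⟩ := ih
  obtain ⟨C2, hC2⟩ := hS d m p hm hmd hp
  refine ⟨C2 * C1 ^ ((m : ℝ) / ((m : ℝ) + 1)), fun f hf => ?_⟩
  -- Minkowski
  have h1 : ∀ t : ℝ, ∫⁻ x : Fin (m + 1) → ℝ, (∫⁻ v : Fin (m + 1) → ℝ, f (x - t • v) v) ^ p ≤
      ∫⁻ x : ℝ, (∫⁻ v : ℝ, IndR m p f t (x - t * v) v) ^ p := by
    intro t
    rw [Ind_rho m p f hf t]
    refine lintegral_mono fun x => ?_
    have h2 := hM ℝ (Fin m → ℝ) volume volume p hp1.le
      (fun v y => IndS m f t y (x - t * v) v)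
      (Ind_meas_S m f hf (fun _ : ℝ × (Fin m → ℝ) => t) (fun z => x - t * z.1) (fun z => z.1)
        (fun z => z.2) (by fun_prop) (by fun_prop) (by fun_prop) (by fun_prop))
    have h3 := ENNReal.rpow_le_rpow h2 (by linarith : 0 ≤ p)
    rw [← ENNReal.rpow_mul, one_div_mul_cancel (by linarith : p ≠ 0), ENNReal.rpow_one] at h3
    exact h3
  have h2 : ∫⁻ t : ℝ, (∫⁻ x : Fin (m + 1) → ℝ, (∫⁻ v : Fin (m + 1) → ℝ, f (x - t • v) v) ^ p) ^
        ((d : ℝ) / ((m : ℝ) + 1)) ≤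
      (C2 : ℝ≥0∞) * (∫⁻ v : ℝ, (∫⁻ u : ℝ, (∫⁻ t : ℝ, IndR m p f t u v ^ ((d : ℝ) * p / (m : ℝ))) ^
      ((m : ℝ) / ((d : ℝ) + 1))) ^ (((d : ℝ) + 1) / ((d : ℝ) * p - 1))) ^
      (((d : ℝ) * p - 1) / ((m : ℝ) + 1)) :=
    (lintegral_mono fun t => ENNReal.rpow_le_rpow (h1 t) (by positivity)).trans
      (hC2 (IndR m p f) (Ind_meas_R m p f hf))
  -- induction hypothesis
  set a : ℝ := (d : ℝ) * p / ((d : ℝ) * p - 1) with ha
  set b : ℝ := (d : ℝ) * p / ((d : ℝ) + 1) with hb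
  have ha0 : 0 < a := by positivity
  have hb0 : 0 < b := by positivity
  have h3 : ∀ u v : ℝ, (∫⁻ t : ℝ, IndR m p f t u v ^ ((d : ℝ) * p / (m : ℝ))) ^
      ((m : ℝ) / ((d : ℝ) + 1)) ≤ (C1 : ℝ≥0∞) ^ ((m : ℝ) / ((d : ℝ) + 1)) *
        inorm a b m (fun y w => f (Fin.cons u y) (Fin.cons v w)) ^ b := by
    intro u v
    have h4 := hC1 (fun y w => f (Fin.cons u y) (Fin.cons v w))
      (Ind_meas_f m f hf (fun _ : (Fin m → ℝ) × (Fin m → ℝ) => u) (fun _ => v) (fun z => z.1)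
        (fun z => z.2) measurable_const measurable_const measurable_fst measurable_snd)
    have h5 : ∫⁻ t : ℝ, IndR m p f t u v ^ ((d : ℝ) * p / (m : ℝ)) =
        ∫⁻ t : ℝ, (∫⁻ x : Fin m → ℝ, (∫⁻ w : Fin m → ℝ,
          f (Fin.cons u (x - t • w)) (Fin.cons v w)) ^ p) ^ ((d : ℝ) / (m : ℝ)) := by
      refine lintegral_congr fun t => ?_
      unfold IndR IndS
      rw [← ENNReal.rpow_mul]
      congr 1
      field_simp
    rw [h5]
    refine (ENNReal.rpow_le_rpow h4 (by positivity)).trans (le_of_eq ?_)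
    rw [ENNReal.mul_rpow_of_nonneg _ _ (by positivity), ← ENNReal.rpow_mul]
    congr 2
    rw [hb]
    field_simp
  have eab : ((d : ℝ) + 1) / ((d : ℝ) * p - 1) = a / b := by
    rw [ha, hb]
    field_simp
  have h4 : ∫⁻ v : ℝ, (∫⁻ u : ℝ, (∫⁻ t : ℝ, IndR m p f t u v ^ ((d : ℝ) * p / (m : ℝ))) ^
      ((m : ℝ) / ((d : ℝ) + 1))) ^ (((d : ℝ) + 1) / ((d : ℝ) * p - 1)) ≤
      (C1 : ℝ≥0∞) ^ ((m : ℝ) / ((d : ℝ) * p - 1)) * inorm a b (m + 1) f ^ a := by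
    have hc : (C1 : ℝ≥0∞) ^ ((m : ℝ) / ((d : ℝ) + 1)) ≠ ∞ :=
      ENNReal.rpow_ne_top_of_nonneg (by positivity) ENNReal.coe_ne_top
    have hc' : (C1 : ℝ≥0∞) ^ ((m : ℝ) / ((d : ℝ) * p - 1)) ≠ ∞ :=
      ENNReal.rpow_ne_top_of_nonneg (by positivity) ENNReal.coe_ne_top
    calc ∫⁻ v : ℝ, (∫⁻ u : ℝ, (∫⁻ t : ℝ, IndR m p f t u v ^ ((d : ℝ) * p / (m : ℝ))) ^
          ((m : ℝ) / ((d : ℝ) + 1))) ^ (((d : ℝ) + 1) / ((d : ℝ) * p - 1))
        ≤ ∫⁻ v : ℝ, (C1 : ℝ≥0∞) ^ ((m : ℝ) / ((d : ℝ) * p - 1)) * (∫⁻ u : ℝ,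
            inorm a b m (fun y w => f (Fin.cons u y) (Fin.cons v w)) ^ b) ^ (a / b) := by
          refine lintegral_mono fun v => ?_
          refine (ENNReal.rpow_le_rpow (lintegral_mono fun u => h3 u v)
            (by positivity)).trans (le_of_eq ?_)
          rw [lintegral_const_mul' _ _ hc, ENNReal.mul_rpow_of_nonneg _ _ (by positivity),
            ← ENNReal.rpow_mul, eab]
          congr 2
          rw [← eab]
          field_simp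
      _ = (C1 : ℝ≥0∞) ^ ((m : ℝ) / ((d : ℝ) * p - 1)) * inorm a b (m + 1) f ^ a := by
          rw [lintegral_const_mul' _ _ hc', Ind_inorm_succ, ← ENNReal.rpow_mul,
            one_div_mul_cancel ha0.ne', ENNReal.rpow_one]
  have hcast : ((m + 1 : ℕ) : ℝ) = (m : ℝ) + 1 := by push_cast; ring
  rw [hcast]
  refine h2.trans ?_
  refine (mul_le_mul_right (ENNReal.rpow_le_rpow h4 (by positivity)) (C2 : ℝ≥0∞)).trans
    (le_of_eq ?_)
  rw [ENNReal.mul_rpow_of_nonneg _ _ (by positivity), ← ENNReal.rpow_mul, ← ENNReal.rpow_mul,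
    ENNReal.coe_mul, ENNReal.coe_rpow_of_nonneg _ (by positivity), mul_assoc]
  congr 3
  · field_simp
  · rw [ha]
    field_simp

/-- [IND]. -/
theorem thm_Ind (hM : St_Mnk) (hB : St_Bas) (hS : St_Stp) : St_Ind := by
  intro d k p hk
  induction k, hk using Nat.le_induction with
  | base => exact fun hd hp => Ind_base hB d p hd hp
  | succ m hm ih => exact fun hd hp => Ind_step hM hS d m p hm hd hp (ih (by omega) hp)

end Pool.Agent.FTN
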