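import Pool.Agent.FTN.St

/-!
# FTN, module Lin: the estimate is invariant under linear maps
-/

set_option autoImplicit false

open MeasureTheory Set
open scoped ENNReal NNReal

namespace Pool.Agent.FTN

private theorem Lin_comp {d : ℕ} (A : (Fin d → ℝ) ≃ₗ[ℝ] (Fin d → ℝ)) :
    ∃ c : ℝ≥0∞, c ≠ 0 ∧ c ≠ ∞ ∧ ∀ h : (Fin d → ℝ) → ℝ≥0∞,
      ∫⁻ v : Fin d → ℝ, h (A v) = c * ∫⁻ w : Fin d → ℝ, h w := by
  have hdet : LinearMap.det (A : (Fin d → ℝ) →ₗ[ℝ] (Fin d → ℝ)) ≠ 0 :=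
    (LinearEquiv.isUnit_det' A).ne_zero
  refine ⟨ENNReal.ofReal |(LinearMap.det (A : (Fin d → ℝ) →ₗ[ℝ] (Fin d → ℝ)))⁻¹|, ?_,
    ENNReal.ofReal_ne_top, fun h => ?_⟩
  · rw [Ne, ENNReal.ofReal_eq_zero, not_le]
    positivity
  · have h1 := Real.map_linearMap_volume_pi_eq_smul_volume_pi hdet
    have h2 := MeasureTheory.lintegral_map_equiv (μ := (volume : Measure (Fin d → ℝ))) h
      A.toContinuousLinearEquiv.toHomeomorph.toMeasurableEquiv
    have h3 : (⇑(A.toContinuousLinearEquiv.toHomeomorph.toMeasurableEquiv) :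
        (Fin d → ℝ) → (Fin d → ℝ)) = ⇑(A : (Fin d → ℝ) →ₗ[ℝ] (Fin d → ℝ)) := rfl
    rw [h3, h1, lintegral_smul_measure, smul_eq_mul] at h2
    rw [h2]
    rfl

theorem thm_Lin : St_Lin := by
  intro d p C A f hd hp _ hE
  obtain ⟨c, hc0, hct, hc⟩ := Lin_comp A
  have hdr : (1 : ℝ) ≤ d := by exact_mod_cast hd
  have hd0 : (0 : ℝ) < d := by linarith
  have hdp : (d : ℝ) + 1 < d * p := by
    rw [div_lt_iff₀ hd0] at hp
    linarith
  have hp0 : 0 < p := by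
    by_contra h
    have h1 : (d : ℝ) * p ≤ 0 := mul_nonpos_of_nonneg_of_nonpos hd0.le (not_lt.mp h)
    linarith
  unfold Est at hE ⊢
  set b : ℝ := (d : ℝ) * p / ((d : ℝ) + 1) with hb
  set a : ℝ := (d : ℝ) * p / ((d : ℝ) * p - 1) with ha
  have hb0 : 0 < b := by positivity
  have ha0 : 0 < a := by
    rw [ha]
    apply div_pos (by positivity) (by linarith)
  -- the left hand side
  have hL : ∫⁻ t : ℝ, ∫⁻ x : Fin d → ℝ, (∫⁻ v : Fin d → ℝ, f (A (x - t • v)) (A v)) ^ p =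
      c ^ p * c * ∫⁻ t : ℝ, ∫⁻ x : Fin d → ℝ, (∫⁻ v : Fin d → ℝ, f (x - t • v) v) ^ p := by
    have hcc : c ^ p * c ≠ ∞ := ENNReal.mul_ne_top (ENNReal.rpow_ne_top_of_nonneg hp0.le hct) hct
    rw [← lintegral_const_mul' _ _ hcc]
    refine lintegral_congr fun t => ?_
    have h1 : ∀ x : Fin d → ℝ, (∫⁻ v : Fin d → ℝ, f (A (x - t • v)) (A v)) ^ p =
        c ^ p * (∫⁻ w : Fin d → ℝ, f (A x - t • w) w) ^ p := by
      intro x
      have h2 : ∀ v : Fin d → ℝ, f (A (x - t • v)) (A v) = f (A x - t • A v) (A v) := by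
        intro v
        rw [map_sub, map_smul]
      simp_rw [h2]
      rw [hc fun w => f (A x - t • w) w, ENNReal.mul_rpow_of_nonneg _ _ hp0.le]
    simp_rw [h1]
    rw [lintegral_const_mul' _ _ (ENNReal.rpow_ne_top_of_nonneg hp0.le hct),
      hc fun x => (∫⁻ w : Fin d → ℝ, f (x - t • w) w) ^ p, mul_assoc]
  have hR : ∫⁻ v : Fin d → ℝ, (∫⁻ x : Fin d → ℝ, f (A x) (A v) ^ b) ^ (a / b) =
      c ^ (a / b) * c * ∫⁻ v : Fin d → ℝ, (∫⁻ x : Fin d → ℝ, f x v ^ b) ^ (a / b) := by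
    have hab : 0 ≤ a / b := by positivity
    have h1 : ∀ v : Fin d → ℝ, (∫⁻ x : Fin d → ℝ, f (A x) (A v) ^ b) ^ (a / b) =
        c ^ (a / b) * (∫⁻ x : Fin d → ℝ, f x (A v) ^ b) ^ (a / b) := by
      intro v
      rw [hc fun x => f x (A v) ^ b, ENNReal.mul_rpow_of_nonneg _ _ hab]
    simp_rw [h1]
    rw [lintegral_const_mul' _ _ (ENNReal.rpow_ne_top_of_nonneg hab hct),
      hc fun v => (∫⁻ x : Fin d → ℝ, f x v ^ b) ^ (a / b), mul_assoc]
  rw [hL, hR, ENNReal.mul_rpow_of_nonneg _ _ (by positivity : 0 ≤ 1 / p),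
    ENNReal.mul_rpow_of_nonneg _ _ (by positivity : 0 ≤ 1 / a)] at hE
  have e1 : (c ^ p * c) ^ (1 / p) = c ^ (1 + 1 / p) := by
    have h1 : c ^ p * c = c ^ (p + 1) := by
      rw [ENNReal.rpow_add _ _ hc0 hct, ENNReal.rpow_one]
    rw [h1, ← ENNReal.rpow_mul]
    congr 1
    field_simp
  have e2 : (c ^ (a / b) * c) ^ (1 / a) = c ^ (1 + 1 / p) := by
    have h1 : c ^ (a / b) * c = c ^ (a / b + 1) := by
      rw [ENNReal.rpow_add _ _ hc0 hct, ENNReal.rpow_one]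
    rw [h1, ← ENNReal.rpow_mul]
    congr 1
    have h2 : (a / b + 1) * (1 / a) = 1 / b + 1 / a := by
      field_simp
    rw [h2, ha, hb]
    have h3 : (d : ℝ) * p - 1 ≠ 0 := by linarith
    field_simp
    ring
  rw [e1, e2, ← mul_assoc, mul_comm (C : ℝ≥0∞), mul_assoc] at hE
  have hk0 : c ^ (1 + 1 / p) ≠ 0 := by
    rw [Ne, ENNReal.rpow_eq_zero_iff]
    push Not
    exact ⟨fun h => absurd h hc0, fun h => absurd h hct⟩
  have hkt : c ^ (1 + 1 / p) ≠ ∞ := ENNReal.rpow_ne_top_of_nonneg (by positivity) hct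
  exact (ENNReal.mul_le_mul_iff_right hk0 hkt).mp hE

end Pool.Agent.FTN
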