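import Pool.Agent.FTN.St
import Pool.Agent.FTX.Cov

/-!
# FTN, module Mai: the main theorem
-/

set_option autoImplicit false

open MeasureTheory Set
open scoped ENNReal NNReal

namespace Pool.Agent.FTN

theorem Mai_one (hInd : St_Ind) (d : ℕ) (p : ℝ) (hd : 1 ≤ d)
    (hp : ((d : ℝ) + 1) / (d : ℝ) < p) : ∃ C : ℝ≥0,
    ∀ f : (Fin d → ℝ) → (Fin d → ℝ) → ℝ≥0∞, Measurable (Function.uncurry f) →
      (∫⁻ t : ℝ, ∫⁻ x : Fin d → ℝ, (∫⁻ v : Fin d → ℝ, f (x - t • v) v) ^ p) ^ (1 / p) ≤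
        (C : ℝ≥0∞) * inorm ((d : ℝ) * p / ((d : ℝ) * p - 1)) ((d : ℝ) * p / ((d : ℝ) + 1)) d f := by
  have hd0 : (0 : ℝ) < d := by exact_mod_cast hd
  have hp0 : 0 < p := lt_trans (by positivity) hp
  obtain ⟨C, hC⟩ := hInd d d p hd le_rfl hp
  refine ⟨C ^ (1 / p), fun f hf => ?_⟩
  have h1 := hC f hf
  have e1 : (d : ℝ) / (d : ℝ) = 1 := div_self hd0.ne'
  have e2 : (d : ℝ) * p / (d : ℝ) = p := by field_simp
  simp only [e1, e2, ENNReal.rpow_one] at h1
  have h2 := ENNReal.rpow_le_rpow h1 (by positivity : 0 ≤ 1 / p)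
  rw [ENNReal.mul_rpow_of_nonneg _ _ (by positivity : 0 ≤ 1 / p), ← ENNReal.rpow_mul,
    mul_one_div_cancel hp0.ne', ENNReal.rpow_one] at h2
  rw [ENNReal.coe_rpow_of_nonneg _ (by positivity)]
  exact h2

theorem thm_Mai (hInd : St_Ind) (hCau : St_Cau) (hLin : St_Lin) : St_Mai := by
  intro d p hd hp
  obtain ⟨C, hC⟩ := Mai_one hInd d p hd hp
  have hd0 : (0 : ℝ) < d := by exact_mod_cast hd
  have hp0 : 0 < p := lt_trans (by positivity) hp
  have hdp : (d : ℝ) + 1 < d * p := by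
    rw [div_lt_iff₀ hd0] at hp
    linarith
  have hp1 : 1 ≤ p := by
    have h1 : (1 : ℝ) ≤ ((d : ℝ) + 1) / (d : ℝ) := by
      rw [le_div_iff₀ hd0]
      linarith
    exact h1.trans hp.le
  have ha : 0 < (d : ℝ) * p / ((d : ℝ) * p - 1) := div_pos (by positivity) (by linarith)
  have hb : 0 < (d : ℝ) * p / ((d : ℝ) + 1) := by positivity
  refine ⟨C, hC, fun L A F f hF hcau h1 h2 => ?_⟩
  have hEst : ∀ j, Est d p C (F j) := by
    intro j
    refine hLin d p C (A j) (F j) hd hp (hF j) ?_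
    have hAm : Measurable (A j) := (A j).toLinearMap.continuous_of_finiteDimensional.measurable
    have hm : Measurable (Function.uncurry fun x v => F j (A j x) (A j v)) :=
      (hF j).comp ((hAm.comp measurable_fst).prodMk (hAm.comp measurable_snd))
    have h3 := hC _ hm
    have h4 := hCau _ _ d ha hb _ hm (hcau j)
    exact h3.trans (by gcongr)
  have h5 := Pool.Agent.FTX.cover (T := univ) (C := (C : ℝ≥0∞)) hp1 ha hb hF h1 h2 (fun j => by
    rw [Measure.restrict_univ]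
    exact hEst j)
  rw [Measure.restrict_univ] at h5
  show _ ≤ _
  rw [ENNReal.coe_mul, ENNReal.coe_natCast]
  exact h5

end Pool.Agent.FTN
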