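import Pool.Agent.FTN.Defs

/-!
# Free transport, interleaved norms: statements, with proofs in the docstrings

Module `Pool/Agent/FTN/<X>.lean` proves `theorem thm_<X> : St_<X>` (with the hypotheses named in the
docstring as arguments).  All integrals are `∫⁻`.  `Pool.Agent.FTX` has useful lemmas (`dual_norm`
in `FTX/Main.lean`, `layer_le`, `wdis`, `lintegral_wdis_le`, `lintegral_weight` in `FTX/Int.lean`,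
`cover` in `FTX/Cov.lean`).
-/

set_option autoImplicit false

open MeasureTheory Set
open scoped ENNReal NNReal

namespace Pool.Agent.FTN

/-- [HLS] The Hardy-Littlewood-Sobolev inequality on the line.

Proof. Put `a = 2 / (2 - l)`, `K(x) = |x|^(-l)`.
(1) For measurable `F`: `∫_F K(v - w) dw ≤ C₁ |F|^(1-l)`, `C₁ = 2 / (1 - l) + 1`, for every `v`: trivial if `|F|` is
`0` or `∞`; otherwise let `m = |F|`, the part with `|v - w| < m` is at most `2 m^(1-l) / (1 - l)`, and on the rest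
`K ≤ m^(-l)`.  So `J(G, F) = ∫_G ∫_F K ≤ C₁ min (|G| |F|^(1-l), |F| |G|^(1-l))`.
(2) `layer_le` (`Pool.Agent.FTX.Int`): `M v ≤ ∫⁻ s, 1_{e^s < M v} e^s`.  With `D(s) = |{M > e^s}|`, Tonelli:
`LHS ≤ ∫⁻ s, ∫⁻ r, e^s e^r J({M > e^s}, {M > e^r}) ≤ C₁ ∫⁻∫⁻ e^(s+r) min (D(s) D(r)^(1-l), D(r) D(s)^(1-l))`.
(3) Let `A(s) = D(s) e^(a s)` (`wdis volume M a s`), `e = l / (2 - l) = a - 1 = 1 - a (1 - l) > 0`:
`D(s) D(r)^(1-l) e^(s+r) = A(s) A(r)^(1-l) e^(e (r - s))`.  Use this for `r ≤ s` and the other expression for `s ≤ r`: the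
integrand is at most `(A(s) A(r)^(1-l) + A(r) A(s)^(1-l)) W(s - r)`, `W(s) = e^(-e |s|)`.
(4) Hölder with the exponents `1 / l` and `1 / (1 - l)` on `ℝ × ℝ`:
`∫∫ A(s) A(r)^(1-l) W = ∫∫ (A(s) W)^l (A(s) A(r) W)^(1-l) ≤ (∫∫ A(s) W(s - r))^l (∫∫ A(s) A(r))^(1-l)
 = (2 / e)^l (∫ A)^(2-l)` (`W ≤ 1` in the second factor, `lintegral_weight` in the first).
(5) `∫ A ≤ (1 / a) ∫ M^a` (`lintegral_wdis_le`). -/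
def St_Hls : Prop := ∀ l : ℝ, 0 < l → l < 1 → ∃ C : ℝ≥0, ∀ M : ℝ → ℝ≥0∞, Measurable M →
  ∫⁻ v : ℝ, ∫⁻ w : ℝ, M v * M w * ENNReal.ofReal (|v - w| ^ (-l)) ≤
    (C : ℝ≥0∞) * (∫⁻ v : ℝ, M v ^ (2 / (2 - l))) ^ (2 - l)

/-- [MNK] Minkowski's integral inequality.

Proof. `p = 1`: Tonelli.  `p > 1`: `dual_norm` (`Pool.Agent.FTX.Main`) with `ρ y = ∫ f x y dμ(x)`,
`K` = the right hand side: for measurable `φ`, by Tonelli and Hölder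
`∫ ρ φ dν = ∫ (∫ f x y φ y dν(y)) dμ(x) ≤ ∫ ‖f x ·‖_p ‖φ‖_{p'} dμ(x)`. -/
def St_Mnk : Prop := ∀ (X Y : Type) [MeasurableSpace X] [MeasurableSpace Y] (μ : Measure X)
  (ν : Measure Y) [SigmaFinite μ] [SigmaFinite ν] (p : ℝ), 1 ≤ p → ∀ f : X → Y → ℝ≥0∞,
  Measurable (Function.uncurry f) →
  (∫⁻ y, (∫⁻ x, f x y ∂μ) ^ p ∂ν) ^ (1 / p) ≤ ∫⁻ x, (∫⁻ y, f x y ^ p ∂ν) ^ (1 / p) ∂μ

/-- [OST] The planar estimate (a strong form of a theorem of Oberlin and Stein), from `St_Hls`, `St_Mnk`.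

Proof. (0) For `v ≠ w` and measurable `g, h`:
`∫∫ g(x - t v) h(x - t w) dx dt = |v - w|⁻¹ (∫ g) (∫ h)` (for fixed `t` translate `x`:
`∫ g(x) h(x + t (v - w)) dx`; exchange the integrals; scale and translate `t`).
(1) Put `s = r / 2 > 1`, `T(t,x) = ∫ Φ(x - t v, v) dv`; `T^2 = ∫∫ Φ(x - t v, v) Φ(x - t w, w) dv dw`; [MNK] for
`X = ℝ × ℝ` (the pairs `(v, w)`), `Y = ℝ × ℝ` (the pairs `(t, x)`), exponent `s`: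
`(∫∫ T^(2 s))^(1/s) ≤ ∫∫ (∫∫ Φ(x - t v, v)^s Φ(x - t w, w)^s dx dt)^(1/s) dv dw
 = ∫∫ |v - w|^(-1/s) M(v) M(w) dv dw`, `M(v) = (∫ Φ(x, v)^s dx)^(1/s)` (the diagonal `v = w` has measure zero).
(2) [HLS] with `l = 1 / s = 2 / r`: the right hand side is at most `C (∫ M^(2/(2-l)))^(2-l)`,
`2 / (2 - l) = r / (r - 1)`, `2 - l = 2 (r - 1) / r`.  Raise to the power `s = r / 2`:
`M^(r/(r-1)) = (∫ Φ^(r/2))^(2/(r-1))`. -/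
def St_Ost : Prop := ∀ r : ℝ, 2 < r → ∃ C : ℝ≥0, ∀ Φ : ℝ → ℝ → ℝ≥0∞,
  Measurable (Function.uncurry Φ) →
  ∫⁻ t : ℝ, ∫⁻ x : ℝ, (∫⁻ v : ℝ, Φ (x - t * v) v) ^ r ≤
    (C : ℝ≥0∞) * (∫⁻ v : ℝ, (∫⁻ x : ℝ, Φ x v ^ (r / 2)) ^ (2 / (r - 1))) ^ (r - 1)

/-- [WGT] The weights.

Proof. Put `b = d p / (d + 1)`, `a = d p / (d p - 1)`, `r = d p / (d - 1)`, `q = d p - d + 1 > 2`, `θ = q / (d p)`,
`1 - θ = (d - 1) / (d p)`, `E(v) = ∫ N(u,v)^b du`,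
`F = N^(2/((d+1) θ)) E^κ`, `W = N^(b - r) E^(a/b - 1)`, `κ = (a/b) (2/(q-1))⁻¹ (2/q) - 2/q`, that is
`κ = (d + 1) (q - 1) / (q (d p - 1)) - 2 / q` (then `θ κ + (1 - θ) (a/b - 1) = 0`, and
`2/((d+1) θ) · q/2 = b`, `κ q / 2 + 1 = (a/b) (q - 1)/2`).
For almost every `v` `E(v) < ∞` (the integral of `E^(a/b)` is finite), and then `N(u,v) < ∞` for almost every `u`; if
`E(v) = 0` then `N(u,v) = 0` for almost every `u`.  If `0 < N(u,v) < ∞` and `0 < E(v) < ∞` then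
`F^θ W^(1-θ) = N^0 E^0 = 1`.
Second: for `0 < E(v) < ∞`: `∫ F^(q/2) du = E^(κ q/2) ∫ N^b = E^(κ q / 2 + 1)`, and the power `2/(q-1)` of this is
`E^(a/b)`; for `E(v) = 0` both are zero (`N = 0`, so `F = 0`, almost everywhere; `0 · ∞ = 0`).
Third: `N^r W = N^b E^(a/b-1)` if `0 < N < ∞`, and both are `0` if `N = 0`; the integral is `E^(a/b)` (or `0`). -/
def St_Wgt : Prop := ∀ (d : ℕ) (p : ℝ), 2 ≤ d → ((d : ℝ) + 1) / (d : ℝ) < p →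
  ∀ N : ℝ → ℝ → ℝ≥0∞, Measurable (Function.uncurry N) →
  ∫⁻ v : ℝ, (∫⁻ u : ℝ, N u v ^ ((d : ℝ) * p / ((d : ℝ) + 1))) ^
    (((d : ℝ) + 1) / ((d : ℝ) * p - 1)) ≠ ∞ →
  ∃ F W : ℝ → ℝ → ℝ≥0∞, Measurable (Function.uncurry F) ∧ Measurable (Function.uncurry W) ∧
    (∀ᵐ v : ℝ, ∀ᵐ u : ℝ, N u v = 0 ∨ 1 ≤ F u v ^ (((d : ℝ) * p - (d : ℝ) + 1) / ((d : ℝ) * p)) *
      W u v ^ (((d : ℝ) - 1) / ((d : ℝ) * p))) ∧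
    ∫⁻ v : ℝ, (∫⁻ u : ℝ, F u v ^ (((d : ℝ) * p - (d : ℝ) + 1) / 2)) ^
        (2 / ((d : ℝ) * p - (d : ℝ))) ≤
      ∫⁻ v : ℝ, (∫⁻ u : ℝ, N u v ^ ((d : ℝ) * p / ((d : ℝ) + 1))) ^
        (((d : ℝ) + 1) / ((d : ℝ) * p - 1)) ∧
    ∫⁻ v : ℝ, ∫⁻ u : ℝ, N u v ^ ((d : ℝ) * p / ((d : ℝ) - 1)) * W u v ≤
      ∫⁻ v : ℝ, (∫⁻ u : ℝ, N u v ^ ((d : ℝ) * p / ((d : ℝ) + 1))) ^
        (((d : ℝ) + 1) / ((d : ℝ) * p - 1))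

/-- [HLD] Hölder with the two factors: `T ≤ T₀^θ T₁^(1-θ)`, `θ = (d p - d + 1) / (d p)`.

Proof. `T(t,x) = ∫ R(t, x - t v, v) dv`, `T₀(t,x) = ∫ F(x - t v, v) dv`, `T₁(t,x) = ∫ R(t, x - t v, v)^(1/(1-θ)) W(x - t v, v) dv`.
By the hypothesis `R = 0` or `1 ≤ F^θ W^(1-θ)` for almost every `(v, t, u)`; for fixed `v` the map
`(t, x) ↦ (t, x - t v)` preserves the measure, so for almost every `(t, x)`, for almost every `v`,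
`R ≤ F^θ (R^(1/(1-θ)) W)^(1-θ)` at `(t, x - t v, v)`, and Hölder in `v` gives `T ≤ T₀^θ T₁^(1-θ)`.
Then `∫ T^p dx ≤ ∫ (T₀^q)^(1/d) T₁^((d-1)/d) dx ≤ (∫ T₀^q dx)^(1/d) (∫ T₁ dx)^((d-1)/d)` (`q = d p - d + 1`,
`θ p = q / d`, `(1 - θ) p = (d - 1) / d`, Hölder with the exponents `d`, `d / (d - 1)`), and
`∫ T₁(t,x) dx = ∫∫ R(t,u,v)^(d p/(d-1)) W(u,v) du dv` (Tonelli, translation). -/
def St_Hld : Prop := ∀ (d : ℕ) (p : ℝ), 2 ≤ d → ((d : ℝ) + 1) / (d : ℝ) < p →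
  ∀ (R : ℝ → ℝ → ℝ → ℝ≥0∞) (F W : ℝ → ℝ → ℝ≥0∞),
  Measurable (fun z : ℝ × ℝ × ℝ => R z.1 z.2.1 z.2.2) → Measurable (Function.uncurry F) →
  Measurable (Function.uncurry W) →
  (∀ᵐ v : ℝ, ∀ᵐ u : ℝ, (∀ᵐ t : ℝ, R t u v = 0) ∨
    1 ≤ F u v ^ (((d : ℝ) * p - (d : ℝ) + 1) / ((d : ℝ) * p)) *
      W u v ^ (((d : ℝ) - 1) / ((d : ℝ) * p))) →
  ∀ᵐ t : ℝ, ∫⁻ x : ℝ, (∫⁻ v : ℝ, R t (x - t * v) v) ^ p ≤
    (∫⁻ x : ℝ, (∫⁻ v : ℝ, F (x - t * v) v) ^ ((d : ℝ) * p - (d : ℝ) + 1)) ^ (1 / (d : ℝ)) *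
    (∫⁻ v : ℝ, ∫⁻ u : ℝ, R t u v ^ ((d : ℝ) * p / ((d : ℝ) - 1)) * W u v) ^
      (((d : ℝ) - 1) / (d : ℝ))

/-- [BAS] One variable, no shading, from `St_Ost`, `St_Wgt`, `St_Hld`.

Proof. `d = 1` is [OST] with `r = p`.  Let `d ≥ 2`, `K` the integral on the right hand side; if `K = ∞` there is nothing
to do (`K^(d p - 1) = ∞`; take `C ≥ 1`).  [WGT] for `N = Φ` gives `F`, `W`; [HLD] for `R(t,u,v) = Φ(u,v)`: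
`(∫ T^p dx)^d ≤ (∫ T₀^q dx) (∫∫ Φ^(d p/(d-1)) W)^(d-1) ≤ (∫ T₀^q dx) K^(d-1)` for almost every `t`; integrate in `t` and
use [OST] with `r = q = d p - d + 1 > 2`: `∫∫ T₀^q ≤ C (∫ (∫ F^(q/2))^(2/(q-1)))^(q-1) ≤ C K^(q-1)`, and
`q - 1 + d - 1 = d p - 1`. -/
def St_Bas : Prop := ∀ (d : ℕ) (p : ℝ), 1 ≤ d → ((d : ℝ) + 1) / (d : ℝ) < p →
  ∃ C : ℝ≥0, ∀ Φ : ℝ → ℝ → ℝ≥0∞, Measurable (Function.uncurry Φ) →
  ∫⁻ t : ℝ, (∫⁻ x : ℝ, (∫⁻ v : ℝ, Φ (x - t * v) v) ^ p) ^ (d : ℝ) ≤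
    (C : ℝ≥0∞) * (∫⁻ v : ℝ, (∫⁻ u : ℝ, Φ u v ^ ((d : ℝ) * p / ((d : ℝ) + 1))) ^
      (((d : ℝ) + 1) / ((d : ℝ) * p - 1))) ^ ((d : ℝ) * p - 1)

/-- [STP] One variable, with a shading depending on the line, from `St_Mnk`, `St_Ost`, `St_Wgt`, `St_Hld`.

Proof. `N(u,v) = (∫ R(t,u,v)^(d p/m) dt)^(m/(d p))`, so `N^(d p/(d+1)) = (∫ R^(d p/m))^(m/(d+1))`, and `K` is the integral in
[WGT].  `K = ∞` is trivial (`C ≥ 1`).  [WGT] gives `F, W`; if `N(u,v) = 0` then `R(t,u,v) = 0` for almost every `t`.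
[HLD] raised to the power `d/(m+1)`, integrated in `t`, and Hölder in `t` with the exponents `m + 1`, `(m + 1)/m`:
`∫ (∫ T^p dx)^(d/(m+1)) dt ≤ ∫ (∫ T₀^q dx)^(1/(m+1)) S(t)^((d-1)/(m+1)) dt
 ≤ (∫∫ T₀^q)^(1/(m+1)) (∫ S(t)^((d-1)/m) dt)^(m/(m+1))`, `S(t) = ∫∫ R(t,u,v)^(d p/(d-1)) W(u,v) du dv`.
[MNK] with the exponent `(d-1)/m ≥ 1`, `X = ℝ × ℝ` (the pairs `(v, u)`), `Y = ℝ`:
`(∫ S^((d-1)/m) dt)^(m/(d-1)) ≤ ∫∫ (∫ R^(d p/m) dt)^(m/(d-1)) W = ∫∫ N^(d p/(d-1)) W ≤ K`.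
[OST]: `∫∫ T₀^q ≤ C K^(q-1)`, `q - 1 = d p - d`.  The total power of `K` is `(q - 1)/(m+1) + (d-1)/(m+1) = (d p - 1)/(m+1)`. -/
def St_Stp : Prop := ∀ (d m : ℕ) (p : ℝ), 1 ≤ m → m + 1 ≤ d → ((d : ℝ) + 1) / (d : ℝ) < p →
  ∃ C : ℝ≥0, ∀ R : ℝ → ℝ → ℝ → ℝ≥0∞, Measurable (fun z : ℝ × ℝ × ℝ => R z.1 z.2.1 z.2.2) →
  ∫⁻ t : ℝ, (∫⁻ x : ℝ, (∫⁻ v : ℝ, R t (x - t * v) v) ^ p) ^ ((d : ℝ) / ((m : ℝ) + 1)) ≤
    (C : ℝ≥0∞) * (∫⁻ v : ℝ, (∫⁻ u : ℝ, (∫⁻ t : ℝ, R t u v ^ ((d : ℝ) * p / (m : ℝ))) ^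
      ((m : ℝ) / ((d : ℝ) + 1))) ^ (((d : ℝ) + 1) / ((d : ℝ) * p - 1))) ^
      (((d : ℝ) * p - 1) / ((m : ℝ) + 1))

/-- [IMS] Measurability of the interleaved norm of a measurable family.

Proof. Induction on `k`; `Measurable.lintegral_prod_right'`, powers.  For `k + 1` apply the induction
hypothesis to the family with the parameters `(z, v, x)`; `(x, y) ↦ Fin.cons x y` is measurable
(`measurable_pi_iff`, `Fin.cases`). -/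
def St_Ims : Prop := ∀ (a b : ℝ) (k : ℕ) (Z : Type) [MeasurableSpace Z]
  (f : Z → (Fin k → ℝ) → (Fin k → ℝ) → ℝ≥0∞),
  Measurable (fun z : Z × (Fin k → ℝ) × (Fin k → ℝ) => f z.1 z.2.1 z.2.2) →
  Measurable (fun z => inorm a b k (f z))

/-- [IND] All dimensions, from `St_Mnk`, `St_Bas`, `St_Stp`, `St_Ims`.  `a = d p / (d p - 1)`, `b = d p / (d + 1)`.

Proof. Induction on `k`.  `k = 1`: [BAS], `Fin 1 → ℝ` is `ℝ` (`MeasurableEquiv.funUnique`), `inorm` of `f` is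
`(∫ (∫ f^b)^(a/b))^(1/a)`, `a / b = (d+1)/(d p - 1)`, `(1/a) d p = d p - 1`.
`k = m + 1`, `m ≥ 1`: write `x = (x₁, y)`, `v = (v₁, w)` (`Fin.cons`; `volume_preserving_piFinSuccAbove` or
`MeasureTheory.volume_preserving_piFinSuccAbove (fun _ => ℝ) 0`), and
`S(t, y; u, v) = ∫ f (cons u (y - t w)) (cons v w) dw`, `R(t,u,v) = (∫ S^p dy)^(1/p)`.
`ρ(t, (x₁, y)) = ∫ S(t, y; x₁ - t v, v) dv`, so [MNK] (`p ≥ 1`) gives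
`∫ ρ^p dy ≤ (∫ R(t, x₁ - t v, v) dv)^p`.  [STP]: the left hand side is at most `C K^((d p - 1)/(m+1))`,
`K = ∫ (∫ (∫ R^(d p/m) dt)^(m/(d+1)) du)^((d+1)/(d p - 1)) dv`.  Induction hypothesis for `f (cons u ·) (cons v ·)`:
`∫ R^(d p/m) dt = ∫ (∫ S^p dy)^(d/m) dt ≤ C inorm_m^(d p/m)`, its power `m/(d+1)` is `≤ C' inorm_m^b`; so
`K ≤ C'' ∫ (∫ inorm_m^b)^(a/b) = C'' inorm_(m+1)^a`, and `a (d p - 1)/(m + 1) = d p/(m+1)`. -/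
def St_Ind : Prop := ∀ (d k : ℕ) (p : ℝ), 1 ≤ k → k ≤ d → ((d : ℝ) + 1) / (d : ℝ) < p →
  ∃ C : ℝ≥0, ∀ f : (Fin k → ℝ) → (Fin k → ℝ) → ℝ≥0∞, Measurable (Function.uncurry f) →
  ∫⁻ t : ℝ, (∫⁻ x : Fin k → ℝ, (∫⁻ v : Fin k → ℝ, f (x - t • v) v) ^ p) ^ ((d : ℝ) / (k : ℝ)) ≤
    (C : ℝ≥0∞) * inorm ((d : ℝ) * p / ((d : ℝ) * p - 1)) ((d : ℝ) * p / ((d : ℝ) + 1)) k f ^
      ((d : ℝ) * p / (k : ℝ))

/-- [CAU] For causal data the interleaved norm is not larger than the norm of `L^a_v L^b_x`.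

Proof. Induction on `k` (`k = 0`: both sides are `f 0 0`, powers; the volume of `Fin 0 → ℝ` is a point mass).  `k + 1`:
by the induction hypothesis for `f (cons x ·) (cons v ·)` and causality
`inorm_k ≤ (∫ (A x v * B v w)^(a/b) dw)^(1/a) = (A x v)^(1/b) (∫ (B v w)^(a/b) dw)^(1/a)`, so
`(∫ inorm_k^b dx)^(a/b) ≤ (∫ A x v dx)^(a/b) ∫ (B v w)^(a/b) dw = ∫ (∫ A x v * B v w dx)^(a/b) dw
 = ∫ (∫∫ f^b dy dx)^(a/b) dw`; integrate in `v`. -/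
def St_Cau : Prop := ∀ (a b : ℝ) (k : ℕ), 0 < a → 0 < b →
  ∀ f : (Fin k → ℝ) → (Fin k → ℝ) → ℝ≥0∞, Measurable (Function.uncurry f) → Causal b k f →
  inorm a b k f ≤ (∫⁻ v : Fin k → ℝ, (∫⁻ x : Fin k → ℝ, f x v ^ b) ^ (a / b)) ^ (1 / a)

/-- [LIN] The estimate is invariant under linear maps.

Proof. Let `g x v = f (A x) (A v)`, `D = |det A| ≠ 0` (`MeasureTheory.Measure.addHaar_image_linearMap` or
`Real.map_linearMap_volume_pi_eq_smul_volume_pi`): `ρ_g(t, x) = D⁻¹ ρ_f(t, A x)`, the left hand side for `g` is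
`D^(-1-1/p)` times the one for `f`, the right hand side for `g` is `D^(-1/a-1/b)` times the one for `f`, and
`1/a + 1/b = 1 + 1/p`. -/
def St_Lin : Prop := ∀ (d : ℕ) (p : ℝ) (C : ℝ≥0) (A : (Fin d → ℝ) ≃ₗ[ℝ] (Fin d → ℝ))
  (f : (Fin d → ℝ) → (Fin d → ℝ) → ℝ≥0∞), 1 ≤ d → ((d : ℝ) + 1) / (d : ℝ) < p →
  Measurable (Function.uncurry f) → Est d p C (fun x v => f (A x) (A v)) → Est d p C f

/-- [MAI] The main theorem, from `St_Ind`, `St_Cau`, `St_Lin`.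

Proof. (1) [IND] with `k = d`, take the power `1/p`: `d/k = 1`, `d p / k · 1/p = 1`.  (2) (1) and [CAU].  (3) By (2) and [LIN]
`Est d p C (F j)` for all `j`; `cover` (`Pool.Agent.FTX.Cov`) with `T = univ`. -/
def St_Mai : Prop := ∀ (d : ℕ) (p : ℝ), 1 ≤ d → ((d : ℝ) + 1) / (d : ℝ) < p →
  ∃ C : ℝ≥0,
    (∀ f : (Fin d → ℝ) → (Fin d → ℝ) → ℝ≥0∞, Measurable (Function.uncurry f) →
      (∫⁻ t : ℝ, ∫⁻ x : Fin d → ℝ, (∫⁻ v : Fin d → ℝ, f (x - t • v) v) ^ p) ^ (1 / p) ≤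
        (C : ℝ≥0∞) * inorm ((d : ℝ) * p / ((d : ℝ) * p - 1)) ((d : ℝ) * p / ((d : ℝ) + 1)) d f) ∧
    ∀ (L : ℕ) (A : Fin L → (Fin d → ℝ) ≃ₗ[ℝ] (Fin d → ℝ))
      (F : Fin L → (Fin d → ℝ) → (Fin d → ℝ) → ℝ≥0∞) (f : (Fin d → ℝ) → (Fin d → ℝ) → ℝ≥0∞),
      (∀ j, Measurable (Function.uncurry (F j))) →
      (∀ j, Causal ((d : ℝ) * p / ((d : ℝ) + 1)) d (fun x v => F j (A j x) (A j v))) →
      (∀ j x v, F j x v ≤ f x v) → (∀ x v, f x v ≤ ∑ j, F j x v) → Est d p (L * C) f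

end Pool.Agent.FTN
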