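import Mathlib
import Pool.Agent.FTN.St
import Pool.Agent.FTX.Main

/-!
# FTN, Mnk: the integral inequality of Minkowski
-/

set_option autoImplicit false

open MeasureTheory Set
open scoped ENNReal NNReal

namespace Pool.Agent.FTN

theorem thm_Mnk : St_Mnk := by
  intro X Y _ _ μ ν _ _ p hp f hf
  have hfx : ∀ x, Measurable (fun y => f x y) := fun x => hf.comp measurable_prodMk_left
  have hfy : ∀ y, Measurable (fun x => f x y) := fun y => hf.comp measurable_prodMk_right
  have hsw : Measurable (Function.uncurry fun y x => f x y) := hf.comp measurable_swap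
  rcases hp.eq_or_lt with h | h
  · subst h
    simp only [ENNReal.rpow_one, div_one]
    exact (lintegral_lintegral_swap (μ := ν) (ν := μ) hsw.aemeasurable).le
  · have hp0 : 0 < p := by linarith
    have hρ : Measurable (fun y => ∫⁻ x, f x y ∂μ) := hsw.lintegral_prod_right
    refine Pool.Agent.FTX.dual_norm ν hρ p (p / (p - 1)) h rfl _ ?_
    intro φ hφ
    have hpq : p.HolderConjugate (p / (p - 1)) := Real.HolderConjugate.conjExponent h
    have h1 : Measurable (Function.uncurry fun y x => f x y * φ y) :=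
      hsw.mul (hφ.comp measurable_fst)
    have h2 : Measurable (fun x => (∫⁻ y, f x y ^ p ∂ν) ^ (1 / p)) := by
      have h3 : Measurable (Function.uncurry fun x y => f x y ^ p) := hf.pow_const p
      exact h3.lintegral_prod_right.pow_const _
    calc ∫⁻ y, (∫⁻ x, f x y ∂μ) * φ y ∂ν
        = ∫⁻ y, ∫⁻ x, f x y * φ y ∂μ ∂ν := by
          refine lintegral_congr fun y => ?_
          rw [lintegral_mul_const _ (hfy y)]
      _ = ∫⁻ x, ∫⁻ y, f x y * φ y ∂ν ∂μ :=
          lintegral_lintegral_swap (μ := ν) (ν := μ) h1.aemeasurable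
      _ ≤ ∫⁻ x, (∫⁻ y, f x y ^ p ∂ν) ^ (1 / p) *
            (∫⁻ y, φ y ^ (p / (p - 1)) ∂ν) ^ (1 / (p / (p - 1))) ∂μ := by
          refine lintegral_mono fun x => ?_
          exact ENNReal.lintegral_mul_le_Lp_mul_Lq ν hpq (hfx x).aemeasurable hφ.aemeasurable
      _ = (∫⁻ x, (∫⁻ y, f x y ^ p ∂ν) ^ (1 / p) ∂μ) *
            (∫⁻ y, φ y ^ (p / (p - 1)) ∂ν) ^ (1 / (p / (p - 1))) :=
          lintegral_mul_const _ h2

end Pool.Agent.FTN
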