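import Pool.Agent.FTN.St

/-! # FTN, module Ost: the planar estimate -/

set_option autoImplicit false

open MeasureTheory Set
open scoped ENNReal NNReal

namespace Pool.Agent.FTN

theorem Ost_scale (h : ℝ → ℝ≥0∞) (hh : Measurable h) (x c : ℝ) (hc : c ≠ 0) :
    ∫⁻ t : ℝ, h (x + t * c) = ENNReal.ofReal |c⁻¹| * ∫⁻ u : ℝ, h u := by
  have hm : Measurable (fun u : ℝ => h (x + u)) := hh.comp (measurable_const.add measurable_id)
  have hm2 : Measurable (fun t : ℝ => t * c) := measurable_id.mul_const c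
  have h1 : ∫⁻ t : ℝ, h (x + t * c) =
      ∫⁻ u : ℝ, h (x + u) ∂(Measure.map (fun t : ℝ => t * c) volume) := by
    rw [lintegral_map hm hm2]
  rw [h1, Real.map_volume_mul_right hc, lintegral_smul_measure, smul_eq_mul]
  congr 1
  exact lintegral_add_left_eq_self h x

theorem Ost_bil (g h : ℝ → ℝ≥0∞) (hg : Measurable g) (hh : Measurable h) (v w : ℝ) (hvw : w ≠ v) :
    ∫⁻ t : ℝ, ∫⁻ x : ℝ, g (x - t * v) * h (x - t * w) =
      ENNReal.ofReal |(v - w)⁻¹| * ((∫⁻ x : ℝ, g x) * ∫⁻ x : ℝ, h x) := by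
  have h1 : ∀ t : ℝ, ∫⁻ x : ℝ, g (x - t * v) * h (x - t * w) =
      ∫⁻ x : ℝ, g x * h (x + t * (v - w)) := by
    intro t
    rw [← lintegral_sub_right_eq_self (fun x : ℝ => g x * h (x + t * (v - w))) (t * v)]
    apply lintegral_congr
    intro x
    congr 2
    ring
  simp only [h1]
  rw [lintegral_lintegral_swap]
  · have h2 : ∀ x : ℝ, ∫⁻ t : ℝ, g x * h (x + t * (v - w)) =
        g x * (ENNReal.ofReal |(v - w)⁻¹| * ∫⁻ u : ℝ, h u) := by
      intro x
      have hm : Measurable (fun t : ℝ => h (x + t * (v - w))) :=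
        hh.comp (measurable_const.add (measurable_id.mul_const _))
      rw [lintegral_const_mul _ hm,
        Ost_scale h hh x (v - w) (sub_ne_zero.2 (Ne.symm hvw))]
    simp only [h2]
    rw [lintegral_mul_const _ hg]
    ring
  · apply Measurable.aemeasurable
    apply Measurable.mul
    · exact hg.comp measurable_snd
    · exact hh.comp (measurable_snd.add (measurable_fst.mul_const _))

theorem Ost_prod (G : ℝ × ℝ → ℝ≥0∞) (hG : Measurable G) :
    ∫⁻ z : ℝ × ℝ, G z = ∫⁻ v : ℝ, ∫⁻ w : ℝ, G (v, w) := by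
  rw [Measure.volume_eq_prod, lintegral_prod _ hG.aemeasurable]

theorem thm_Ost (hHls : St_Hls) (hMnk : St_Mnk) : St_Ost := by
  intro r hr
  set s : ℝ := r / 2 with hs
  have hs1 : 1 < s := by
    rw [hs]
    linarith
  have hs0 : 0 < s := by linarith
  have hl0 : 0 < 1 / s := by positivity
  have hl1 : 1 / s < 1 := by
    rw [div_lt_one hs0]
    exact hs1
  obtain ⟨C, hC⟩ := hHls (1 / s) hl0 hl1
  refine ⟨(C : ℝ≥0) ^ s, ?_⟩
  intro Φ hΦ
  -- measurability
  have hT0 : Measurable (fun z : (ℝ × ℝ) × ℝ => Φ (z.1.2 - z.1.1 * z.2) z.2) :=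
    hΦ.comp ((((measurable_snd.comp measurable_fst)).sub
      ((measurable_fst.comp measurable_fst).mul measurable_snd)).prodMk measurable_snd)
  set T : ℝ × ℝ → ℝ≥0∞ := fun y => ∫⁻ v : ℝ, Φ (y.2 - y.1 * v) v with hTdef
  have hT : Measurable T := hT0.lintegral_prod_right'
  set M : ℝ → ℝ≥0∞ := fun v => (∫⁻ x : ℝ, Φ x v ^ s) ^ (1 / s) with hMdef
  have hI : Measurable (fun v : ℝ => ∫⁻ x : ℝ, Φ x v ^ s) := by
    have : Measurable (fun z : ℝ × ℝ => Φ z.2 z.1 ^ s) :=
      (hΦ.comp (measurable_snd.prodMk measurable_fst)).pow_const s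
    exact this.lintegral_prod_right'
  have hM : Measurable M := hI.pow_const _
  set f : ℝ × ℝ → ℝ × ℝ → ℝ≥0∞ := fun z y => Φ (y.2 - y.1 * z.1) z.1 * Φ (y.2 - y.1 * z.2) z.2
    with hf
  have hfm : Measurable (Function.uncurry f) := by
    have h1 : Measurable (fun q : (ℝ × ℝ) × (ℝ × ℝ) => Φ (q.2.2 - q.2.1 * q.1.1) q.1.1) :=
      hΦ.comp (((measurable_snd.comp measurable_snd).sub
        ((measurable_fst.comp measurable_snd).mul (measurable_fst.comp measurable_fst))).prodMk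
          (measurable_fst.comp measurable_fst))
    have h2 : Measurable (fun q : (ℝ × ℝ) × (ℝ × ℝ) => Φ (q.2.2 - q.2.1 * q.1.2) q.1.2) :=
      hΦ.comp (((measurable_snd.comp measurable_snd).sub
        ((measurable_fst.comp measurable_snd).mul (measurable_snd.comp measurable_fst))).prodMk
          (measurable_snd.comp measurable_fst))
    exact h1.mul h2
  have hmk := hMnk (ℝ × ℝ) (ℝ × ℝ) volume volume s hs1.le f hfm
  -- left side
  have hsec : ∀ y : ℝ × ℝ, Measurable (fun v : ℝ => Φ (y.2 - y.1 * v) v) := by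
    intro y
    exact hT0.comp (measurable_const.prodMk measurable_id)
  have hL1 : ∀ y : ℝ × ℝ, ∫⁻ z : ℝ × ℝ, f z y = T y ^ (2 : ℝ) := by
    intro y
    simp only [hf]
    rw [Measure.volume_eq_prod, lintegral_prod_mul (hsec y).aemeasurable (hsec y).aemeasurable]
    rw [show (2 : ℝ) = ((2 : ℕ) : ℝ) by norm_num, ENNReal.rpow_natCast, sq]
  have hL2 : ∫⁻ y : ℝ × ℝ, (∫⁻ z : ℝ × ℝ, f z y) ^ s =
      ∫⁻ t : ℝ, ∫⁻ x : ℝ, (∫⁻ v : ℝ, Φ (x - t * v) v) ^ r := by
    have h1 : ∀ y : ℝ × ℝ, (∫⁻ z : ℝ × ℝ, f z y) ^ s = T y ^ r := by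
      intro y
      rw [hL1, ← ENNReal.rpow_mul]
      congr 1
      rw [hs]
      ring
    simp only [h1]
    rw [Measure.volume_eq_prod, lintegral_prod _ (hT.pow_const r).aemeasurable]
  -- right side
  have hR : ∫⁻ z : ℝ × ℝ, (∫⁻ y : ℝ × ℝ, f z y ^ s) ^ (1 / s) =
      ∫⁻ v : ℝ, ∫⁻ w : ℝ, M v * M w * ENNReal.ofReal (|v - w| ^ (-(1 / s))) := by
    have hmm : Measurable (fun z : ℝ × ℝ => (∫⁻ y : ℝ × ℝ, f z y ^ s) ^ (1 / s)) :=
      ((hfm.pow_const s).lintegral_prod_right').pow_const _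
    rw [Ost_prod _ hmm]
    apply lintegral_congr
    intro v
    have hne : ∀ᵐ w : ℝ, w ≠ v := by
      have : volume ({v} : Set ℝ) = 0 := Real.volume_singleton
      exact (measure_eq_zero_iff_ae_notMem.1 this).mono fun w hw h => hw (by simpa using h)
    apply lintegral_congr_ae
    filter_upwards [hne] with w hw
    have hg : Measurable (fun x : ℝ => Φ x v ^ s) :=
      (hΦ.comp (measurable_id.prodMk measurable_const)).pow_const s
    have hh : Measurable (fun x : ℝ => Φ x w ^ s) :=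
      (hΦ.comp (measurable_id.prodMk measurable_const)).pow_const s
    have h1 : ∫⁻ y : ℝ × ℝ, f (v, w) y ^ s =
        ENNReal.ofReal |(v - w)⁻¹| * ((∫⁻ x : ℝ, Φ x v ^ s) * ∫⁻ x : ℝ, Φ x w ^ s) := by
      have h2 : ∀ y : ℝ × ℝ, f (v, w) y ^ s =
          Φ (y.2 - y.1 * v) v ^ s * Φ (y.2 - y.1 * w) w ^ s := by
        intro y
        simp only [hf]
        rw [ENNReal.mul_rpow_of_nonneg _ _ hs0.le]
      simp only [h2]
      rw [Measure.volume_eq_prod, lintegral_prod]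
      · exact Ost_bil _ _ hg hh v w hw
      · apply Measurable.aemeasurable
        apply Measurable.mul
        · exact hg.comp (measurable_snd.sub (measurable_fst.mul_const v))
        · exact hh.comp (measurable_snd.sub (measurable_fst.mul_const w))
    rw [h1, ENNReal.mul_rpow_of_nonneg _ _ hl0.le, ENNReal.mul_rpow_of_nonneg _ _ hl0.le,
      mul_comm]
    simp only [hMdef]
    congr 1
    rw [ENNReal.ofReal_rpow_of_nonneg (abs_nonneg _) hl0.le, abs_inv,
      Real.inv_rpow (abs_nonneg _), Real.rpow_neg (abs_nonneg _)]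
  rw [hL2, hR] at hmk
  have h3 := hmk.trans (hC M hM)
  -- exponents
  have e1 : 2 / (2 - 1 / s) = r / (r - 1) := by
    rw [hs]
    have : r - 1 ≠ 0 := by linarith
    have h' : r ≠ 0 := by linarith
    have h4 : 2 - 1 / (r / 2) ≠ 0 := by
      have : 1 / (r / 2) < 1 := hl1
      linarith
    rw [div_eq_div_iff h4 this]
    field_simp
  have e2 : ∀ v : ℝ, M v ^ (2 / (2 - 1 / s)) = (∫⁻ x : ℝ, Φ x v ^ (r / 2)) ^ (2 / (r - 1)) := by
    intro v
    simp only [hMdef]
    rw [e1, ← ENNReal.rpow_mul]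
    congr 1
    rw [hs]
    have : r - 1 ≠ 0 := by linarith
    have h' : r ≠ 0 := by linarith
    field_simp
  simp only [e2] at h3
  have h4 := ENNReal.rpow_le_rpow h3 hs0.le
  rw [← ENNReal.rpow_mul, one_div, inv_mul_cancel₀ hs0.ne', ENNReal.rpow_one,
    ENNReal.mul_rpow_of_nonneg _ _ hs0.le, ← ENNReal.rpow_mul] at h4
  have e3 : (2 - s⁻¹) * s = r - 1 := by
    rw [sub_mul, inv_mul_cancel₀ hs0.ne', hs]
    ring
  rw [e3] at h4
  refine h4.trans (le_of_eq ?_)
  rw [ENNReal.coe_rpow_of_nonneg _ hs0.le]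

end Pool.Agent.FTN
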