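import Pool.Agent.FTN.St

/-!
# FTN / Stp: one step with a shading
-/

set_option autoImplicit false

open MeasureTheory Set
open scoped ENNReal NNReal

namespace Pool.Agent.FTN

private theorem Stp_meas_N {R : ℝ → ℝ → ℝ → ℝ≥0∞}
    (hR : Measurable (fun z : ℝ × ℝ × ℝ => R z.1 z.2.1 z.2.2)) (a b : ℝ) :
    Measurable (Function.uncurry (fun u v : ℝ => (∫⁻ t : ℝ, R t u v ^ a) ^ b)) := by
  have h1 : Measurable (fun z : (ℝ × ℝ) × ℝ => R z.2 z.1.1 z.1.2 ^ a) :=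
    (hR.comp (by fun_prop : Measurable (fun z : (ℝ × ℝ) × ℝ => (z.2, z.1.1, z.1.2)))).pow_const a
  exact (h1.lintegral_prod_right').pow_const b

private theorem Stp_meas_A {F : ℝ → ℝ → ℝ≥0∞} (hF : Measurable (Function.uncurry F)) (q : ℝ) :
    Measurable (fun t : ℝ => ∫⁻ x : ℝ, (∫⁻ v : ℝ, F (x - t * v) v) ^ q) := by
  have h1 : Measurable (fun z : (ℝ × ℝ) × ℝ => F (z.1.2 - z.1.1 * z.2) z.2) :=
    hF.comp (by fun_prop : Measurable (fun z : (ℝ × ℝ) × ℝ => (z.1.2 - z.1.1 * z.2, z.2)))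
  exact ((h1.lintegral_prod_right').pow_const q).lintegral_prod_right'

private theorem Stp_meas_S {R : ℝ → ℝ → ℝ → ℝ≥0∞} {W : ℝ → ℝ → ℝ≥0∞}
    (hR : Measurable (fun z : ℝ × ℝ × ℝ => R z.1 z.2.1 z.2.2))
    (hW : Measurable (Function.uncurry W)) (a : ℝ) :
    Measurable (fun t : ℝ => ∫⁻ v : ℝ, ∫⁻ u : ℝ, R t u v ^ a * W u v) := by
  have h1 : Measurable (fun z : (ℝ × ℝ) × ℝ => R z.1.1 z.2 z.1.2 ^ a * W z.2 z.1.2) :=
    ((hR.comp (by fun_prop : Measurable (fun z : (ℝ × ℝ) × ℝ => (z.1.1, z.2, z.1.2)))).pow_const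
      a).mul (hW.comp (by fun_prop : Measurable (fun z : (ℝ × ℝ) × ℝ => (z.2, z.1.2))))
  exact (h1.lintegral_prod_right').lintegral_prod_right'

/-- Minkowski for the weighted integral -/
private theorem Stp_mnk (hMnk : St_Mnk) {R : ℝ → ℝ → ℝ → ℝ≥0∞} {W : ℝ → ℝ → ℝ≥0∞}
    (hR : Measurable (fun z : ℝ × ℝ × ℝ => R z.1 z.2.1 z.2.2))
    (hW : Measurable (Function.uncurry W)) (a s : ℝ) (hs : 1 ≤ s) :
    (∫⁻ t : ℝ, (∫⁻ v : ℝ, ∫⁻ u : ℝ, R t u v ^ a * W u v) ^ s) ^ (1 / s) ≤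
      ∫⁻ v : ℝ, ∫⁻ u : ℝ, (∫⁻ t : ℝ, R t u v ^ (a * s)) ^ (1 / s) * W u v := by
  have hs0 : 0 < s := by linarith
  have hmeas : Measurable (Function.uncurry (fun (z : ℝ × ℝ) (t : ℝ) =>
      R t z.2 z.1 ^ a * W z.2 z.1)) :=
    ((hR.comp (by fun_prop : Measurable (fun z : (ℝ × ℝ) × ℝ => (z.2, z.1.2, z.1.1)))).pow_const
      a).mul (hW.comp (by fun_prop : Measurable (fun z : (ℝ × ℝ) × ℝ => (z.1.2, z.1.1))))
  have h1 := hMnk (ℝ × ℝ) ℝ (volume.prod volume) volume s hs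
    (fun z t => R t z.2 z.1 ^ a * W z.2 z.1) hmeas
  have h2 : ∀ t : ℝ, ∫⁻ z : ℝ × ℝ, R t z.2 z.1 ^ a * W z.2 z.1 ∂(volume.prod volume) =
      ∫⁻ v : ℝ, ∫⁻ u : ℝ, R t u v ^ a * W u v := by
    intro t
    have h3 : Measurable (fun z : ℝ × ℝ => R t z.2 z.1 ^ a * W z.2 z.1) :=
      ((hR.comp (by fun_prop : Measurable (fun z : ℝ × ℝ => (t, z.2, z.1)))).pow_const
        a).mul (hW.comp (by fun_prop : Measurable (fun z : ℝ × ℝ => (z.2, z.1))))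
    exact lintegral_prod _ h3.aemeasurable
  have h4 : ∀ z : ℝ × ℝ, (∫⁻ t : ℝ, (R t z.2 z.1 ^ a * W z.2 z.1) ^ s) ^ (1 / s) =
      (∫⁻ t : ℝ, R t z.2 z.1 ^ (a * s)) ^ (1 / s) * W z.2 z.1 := by
    intro z
    have h5 : Measurable (fun t : ℝ => R t z.2 z.1 ^ (a * s)) :=
      (hR.comp (by fun_prop : Measurable (fun t : ℝ => (t, z.2, z.1)))).pow_const _
    have h6 : ∀ t : ℝ, (R t z.2 z.1 ^ a * W z.2 z.1) ^ s =
        R t z.2 z.1 ^ (a * s) * W z.2 z.1 ^ s := by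
      intro t
      rw [ENNReal.mul_rpow_of_nonneg _ _ hs0.le, ← ENNReal.rpow_mul]
    simp_rw [h6]
    rw [lintegral_mul_const _ h5, ENNReal.mul_rpow_of_nonneg _ _ (by positivity),
      ← ENNReal.rpow_mul, mul_one_div_cancel hs0.ne', ENNReal.rpow_one]
  simp_rw [h2, h4] at h1
  refine h1.trans (le_of_eq ?_)
  have h7 : Measurable (fun z : ℝ × ℝ =>
      (∫⁻ t : ℝ, R t z.2 z.1 ^ (a * s)) ^ (1 / s) * W z.2 z.1) := by
    have h8 : Measurable (fun z : (ℝ × ℝ) × ℝ => R z.2 z.1.2 z.1.1 ^ (a * s)) :=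
      (hR.comp (by fun_prop : Measurable (fun z : (ℝ × ℝ) × ℝ =>
        (z.2, z.1.2, z.1.1)))).pow_const _
    exact ((h8.lintegral_prod_right').pow_const _).mul
      (hW.comp (by fun_prop : Measurable (fun z : ℝ × ℝ => (z.2, z.1))))
  exact lintegral_prod _ h7.aemeasurable

theorem thm_Stp (hMnk : St_Mnk) (hOst : St_Ost) (hWgt : St_Wgt) (hHld : St_Hld) : St_Stp := by
  intro d m p hm hmd hp
  have hm1 : (1 : ℝ) ≤ m := by exact_mod_cast hm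
  have hmd1 : (m : ℝ) + 1 ≤ d := by exact_mod_cast hmd
  have hd2 : 2 ≤ d := by omega
  have hd2R : (2 : ℝ) ≤ d := by exact_mod_cast hd2
  have hd0 : (0 : ℝ) < d := by linarith
  have hm0 : (0 : ℝ) < m := by linarith
  have hm10 : (0 : ℝ) < (m : ℝ) + 1 := by linarith
  have hdp : (d : ℝ) + 1 < (d : ℝ) * p := by
    rw [div_lt_iff₀ hd0] at hp
    linarith
  have hdp0 : 0 < (d : ℝ) * p := by linarith
  have hp0 : 0 < p := pos_of_mul_pos_right hdp0 hd0.le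
  have hp0' : p ≠ 0 := hp0.ne'
  set q : ℝ := (d : ℝ) * p - (d : ℝ) + 1 with hq
  have hq2 : 2 < q := by rw [hq]; linarith
  obtain ⟨C₀, hC₀⟩ := hOst q hq2
  refine ⟨max 1 (C₀ ^ (1 / ((m : ℝ) + 1))), ?_⟩
  intro R hR
  set K : ℝ≥0∞ := ∫⁻ v : ℝ, (∫⁻ u : ℝ, (∫⁻ t : ℝ, R t u v ^ ((d : ℝ) * p / (m : ℝ))) ^
      ((m : ℝ) / ((d : ℝ) + 1))) ^ (((d : ℝ) + 1) / ((d : ℝ) * p - 1)) with hK
  have hexp : 0 < ((d : ℝ) * p - 1) / ((m : ℝ) + 1) := div_pos (by linarith) hm10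
  have hone : (1 : ℝ≥0∞) ≤ ((max 1 (C₀ ^ (1 / ((m : ℝ) + 1))) : ℝ≥0) : ℝ≥0∞) := by
    exact_mod_cast le_max_left _ _
  by_cases hKtop : K = ∞
  · rw [hKtop, ENNReal.top_rpow_of_pos hexp,
      ENNReal.mul_top (ne_of_gt (lt_of_lt_of_le one_pos hone))]
    exact le_top
  -- the function `N`
  set N : ℝ → ℝ → ℝ≥0∞ := fun u v => (∫⁻ t : ℝ, R t u v ^ ((d : ℝ) * p / (m : ℝ))) ^
    ((m : ℝ) / ((d : ℝ) * p)) with hN
  have hNmeas : Measurable (Function.uncurry N) := Stp_meas_N hR _ _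
  have hNpow : ∀ u v, N u v ^ ((d : ℝ) * p / ((d : ℝ) + 1)) =
      (∫⁻ t : ℝ, R t u v ^ ((d : ℝ) * p / (m : ℝ))) ^ ((m : ℝ) / ((d : ℝ) + 1)) := by
    intro u v
    rw [hN]
    simp only
    rw [← ENNReal.rpow_mul]
    congr 1
    field_simp
  have hKN : ∫⁻ v : ℝ, (∫⁻ u : ℝ, N u v ^ ((d : ℝ) * p / ((d : ℝ) + 1))) ^
      (((d : ℝ) + 1) / ((d : ℝ) * p - 1)) = K := by
    simp_rw [hNpow]
    rfl
  obtain ⟨F, W, hFm, hWm, hW1, hW2, hW3⟩ := hWgt d p hd2 hp N hNmeas (by rw [hKN]; exact hKtop)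
  rw [hKN] at hW2 hW3
  -- Hölder
  have hcond : ∀ᵐ v : ℝ, ∀ᵐ u : ℝ, (∀ᵐ t : ℝ, R t u v = 0) ∨
      1 ≤ F u v ^ (((d : ℝ) * p - (d : ℝ) + 1) / ((d : ℝ) * p)) *
        W u v ^ (((d : ℝ) - 1) / ((d : ℝ) * p)) := by
    filter_upwards [hW1] with v hv
    filter_upwards [hv] with u hu
    rcases hu with h | h
    · left
      have h1 : ∫⁻ t : ℝ, R t u v ^ ((d : ℝ) * p / (m : ℝ)) = 0 := by
        have h2 : (∫⁻ t : ℝ, R t u v ^ ((d : ℝ) * p / (m : ℝ))) ^ ((m : ℝ) / ((d : ℝ) * p)) = 0 := h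
        rcases ENNReal.rpow_eq_zero_iff.1 h2 with h3 | h3
        · exact h3.1
        · exact absurd h3.2 (not_lt.2 (by positivity))
      have h4 : Measurable (fun t : ℝ => R t u v ^ ((d : ℝ) * p / (m : ℝ))) :=
        (hR.comp (by fun_prop : Measurable (fun t : ℝ => (t, u, v)))).pow_const _
      have h5 := (lintegral_eq_zero_iff h4).1 h1
      filter_upwards [h5] with t ht
      have h6 : R t u v ^ ((d : ℝ) * p / (m : ℝ)) = 0 := ht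
      rcases ENNReal.rpow_eq_zero_iff.1 h6 with h3 | h3
      · exact h3.1
      · exact absurd h3.2 (not_lt.2 (by positivity))
    · right
      exact h
  have hhld := hHld d p hd2 hp R F W hR hFm hWm hcond
  set A : ℝ → ℝ≥0∞ := fun t => ∫⁻ x : ℝ, (∫⁻ v : ℝ, F (x - t * v) v) ^ q with hA
  set S : ℝ → ℝ≥0∞ := fun t => ∫⁻ v : ℝ, ∫⁻ u : ℝ,
    R t u v ^ ((d : ℝ) * p / ((d : ℝ) - 1)) * W u v with hS
  have hAm : Measurable A := Stp_meas_A hFm q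
  have hSm : Measurable S := Stp_meas_S hR hWm _
  have hstep1 : ∫⁻ t : ℝ, (∫⁻ x : ℝ, (∫⁻ v : ℝ, R t (x - t * v) v) ^ p) ^
      ((d : ℝ) / ((m : ℝ) + 1)) ≤
      ∫⁻ t : ℝ, A t ^ (1 / ((m : ℝ) + 1)) * S t ^ (((d : ℝ) - 1) / ((m : ℝ) + 1)) := by
    apply lintegral_mono_ae
    filter_upwards [hhld] with t ht
    calc (∫⁻ x : ℝ, (∫⁻ v : ℝ, R t (x - t * v) v) ^ p) ^ ((d : ℝ) / ((m : ℝ) + 1))
        ≤ (A t ^ (1 / (d : ℝ)) * S t ^ (((d : ℝ) - 1) / (d : ℝ))) ^ ((d : ℝ) / ((m : ℝ) + 1)) :=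
          ENNReal.rpow_le_rpow ht (by positivity)
      _ = A t ^ (1 / ((m : ℝ) + 1)) * S t ^ (((d : ℝ) - 1) / ((m : ℝ) + 1)) := by
          rw [ENNReal.mul_rpow_of_nonneg _ _ (by positivity), ← ENNReal.rpow_mul,
            ← ENNReal.rpow_mul]
          congr 2 <;> field_simp
  have hconj : ((m : ℝ) + 1).HolderConjugate (((m : ℝ) + 1) / (m : ℝ)) := by
    rw [Real.holderConjugate_iff]
    refine ⟨by linarith, ?_⟩
    field_simp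
    ring
  have hstep2 : ∫⁻ t : ℝ, A t ^ (1 / ((m : ℝ) + 1)) * S t ^ (((d : ℝ) - 1) / ((m : ℝ) + 1)) ≤
      (∫⁻ t : ℝ, A t) ^ (1 / ((m : ℝ) + 1)) *
        (∫⁻ t : ℝ, S t ^ (((d : ℝ) - 1) / (m : ℝ))) ^ ((m : ℝ) / ((m : ℝ) + 1)) := by
    have h1 := ENNReal.lintegral_mul_le_Lp_mul_Lq volume hconj
      (hAm.pow_const (1 / ((m : ℝ) + 1))).aemeasurable
      (hSm.pow_const (((d : ℝ) - 1) / ((m : ℝ) + 1))).aemeasurable
    refine h1.trans (le_of_eq ?_)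
    have h2 : ∀ t : ℝ, (A t ^ (1 / ((m : ℝ) + 1))) ^ ((m : ℝ) + 1) = A t := by
      intro t
      rw [← ENNReal.rpow_mul, one_div_mul_cancel hm10.ne', ENNReal.rpow_one]
    have h3 : ∀ t : ℝ, (S t ^ (((d : ℝ) - 1) / ((m : ℝ) + 1))) ^ (((m : ℝ) + 1) / (m : ℝ)) =
        S t ^ (((d : ℝ) - 1) / (m : ℝ)) := by
      intro t
      rw [← ENNReal.rpow_mul]
      congr 1
      field_simp
    simp_rw [h2, h3]
    congr 2
    field_simp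
  -- Minkowski
  have hs1 : 1 ≤ ((d : ℝ) - 1) / (m : ℝ) := by
    rw [le_div_iff₀ hm0]
    linarith
  have hd1 : (0 : ℝ) < (d : ℝ) - 1 := by linarith
  have hmink : (∫⁻ t : ℝ, S t ^ (((d : ℝ) - 1) / (m : ℝ))) ^ (1 / (((d : ℝ) - 1) / (m : ℝ))) ≤ K := by
    have h1 := Stp_mnk hMnk hR hWm ((d : ℝ) * p / ((d : ℝ) - 1)) (((d : ℝ) - 1) / (m : ℝ)) hs1
    refine (h1.trans (le_of_eq ?_)).trans hW3
    have h2 : (d : ℝ) * p / ((d : ℝ) - 1) * (((d : ℝ) - 1) / (m : ℝ)) = (d : ℝ) * p / (m : ℝ) := by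
      field_simp
    rw [h2]
    refine lintegral_congr fun v => lintegral_congr fun u => ?_
    congr 1
    rw [hN]
    simp only
    rw [← ENNReal.rpow_mul]
    congr 1
    field_simp
  have hSK : (∫⁻ t : ℝ, S t ^ (((d : ℝ) - 1) / (m : ℝ))) ^ ((m : ℝ) / ((m : ℝ) + 1)) ≤
      K ^ (((d : ℝ) - 1) / ((m : ℝ) + 1)) := by
    have h1 := ENNReal.rpow_le_rpow hmink (show 0 ≤ ((d : ℝ) - 1) / ((m : ℝ) + 1) by positivity)
    rw [← ENNReal.rpow_mul] at h1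
    have h2 : 1 / (((d : ℝ) - 1) / (m : ℝ)) * (((d : ℝ) - 1) / ((m : ℝ) + 1)) =
        (m : ℝ) / ((m : ℝ) + 1) := by
      field_simp
    rw [h2] at h1
    exact h1
  -- Oberlin and Stein
  have hAK : (∫⁻ t : ℝ, A t) ^ (1 / ((m : ℝ) + 1)) ≤
      ((C₀ ^ (1 / ((m : ℝ) + 1)) : ℝ≥0) : ℝ≥0∞) * K ^ (((d : ℝ) * p - (d : ℝ)) / ((m : ℝ) + 1)) := by
    have h1 := hC₀ F hFm
    have h2 : q - 1 = (d : ℝ) * p - (d : ℝ) := by rw [hq]; ring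
    rw [h2] at h1
    have h3 : ∫⁻ t : ℝ, A t ≤ (C₀ : ℝ≥0∞) * K ^ ((d : ℝ) * p - (d : ℝ)) := by
      refine h1.trans ?_
      gcongr
      linarith
    have h4 := ENNReal.rpow_le_rpow h3 (show 0 ≤ 1 / ((m : ℝ) + 1) by positivity)
    refine h4.trans (le_of_eq ?_)
    rw [ENNReal.mul_rpow_of_nonneg _ _ (by positivity), ← ENNReal.rpow_mul,
      ENNReal.coe_rpow_of_nonneg _ (by positivity)]
    congr 2
    ring
  refine (hstep1.trans hstep2).trans ((mul_le_mul' hAK hSK).trans ?_)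
  rw [mul_assoc, ← ENNReal.rpow_add_of_nonneg _ _ (by
    apply div_nonneg _ hm10.le
    linarith) (by positivity)]
  have h5 : ((d : ℝ) * p - (d : ℝ)) / ((m : ℝ) + 1) + ((d : ℝ) - 1) / ((m : ℝ) + 1) =
      ((d : ℝ) * p - 1) / ((m : ℝ) + 1) := by
    rw [← add_div]
    congr 1
    ring
  rw [h5]
  gcongr
  exact le_max_right _ _

end Pool.Agent.FTN
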