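import Pool.Agent.FTN.St

/-!
# [WGT] The weights
-/

set_option autoImplicit false

open MeasureTheory Set
open scoped ENNReal NNReal

namespace Pool.Agent.FTN

private theorem Wgt_one {x y : ℝ≥0∞} (hx : x ≠ 0) (hx' : x ≠ ∞) (hy : y ≠ 0) (hy' : y ≠ ∞)
    {A K B G t s : ℝ} (ht : 0 ≤ t) (hs : 0 ≤ s) (h1 : A * t + B * s = 0) (h2 : K * t + G * s = 0) :
    (x ^ A * y ^ K) ^ t * (x ^ B * y ^ G) ^ s = 1 := by
  rw [ENNReal.mul_rpow_of_nonneg _ _ ht, ENNReal.mul_rpow_of_nonneg _ _ hs, ← ENNReal.rpow_mul,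
    ← ENNReal.rpow_mul, ← ENNReal.rpow_mul, ← ENNReal.rpow_mul]
  calc x ^ (A * t) * y ^ (K * t) * (x ^ (B * s) * y ^ (G * s))
      = (x ^ (A * t) * x ^ (B * s)) * (y ^ (K * t) * y ^ (G * s)) := by ring
    _ = 1 := by
        rw [← ENNReal.rpow_add _ _ hx hx', ← ENNReal.rpow_add _ _ hy hy', h1, h2,
          ENNReal.rpow_zero, ENNReal.rpow_zero, one_mul]

private theorem Wgt_core (b c A K B G t s q e r : ℝ) (hb : 0 < b) (hc : 0 < c) (hA : 0 < A)
    (ht : 0 ≤ t) (hs : 0 ≤ s) (hq : 0 < q) (he : 0 < e) (hr : 0 < r)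
    (h1 : A * t + B * s = 0) (h2 : K * t + G * s = 0)
    (h3 : A * q = b) (h4 : (K * q + 1) * e = c) (h5 : r + B = b) (h6 : G + 1 = c)
    (N : ℝ → ℝ → ℝ≥0∞) (hN : Measurable (Function.uncurry N))
    (hK : ∫⁻ v : ℝ, (∫⁻ u : ℝ, N u v ^ b) ^ c ≠ ∞) :
    ∃ F W : ℝ → ℝ → ℝ≥0∞, Measurable (Function.uncurry F) ∧ Measurable (Function.uncurry W) ∧
      (∀ᵐ v : ℝ, ∀ᵐ u : ℝ, N u v = 0 ∨ 1 ≤ F u v ^ t * W u v ^ s) ∧
      ∫⁻ v : ℝ, (∫⁻ u : ℝ, F u v ^ q) ^ e ≤ ∫⁻ v : ℝ, (∫⁻ u : ℝ, N u v ^ b) ^ c ∧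
      ∫⁻ v : ℝ, ∫⁻ u : ℝ, N u v ^ r * W u v ≤ ∫⁻ v : ℝ, (∫⁻ u : ℝ, N u v ^ b) ^ c := by
  have hNb : Measurable (fun z : ℝ × ℝ => N z.1 z.2 ^ b) := hN.pow_const b
  obtain ⟨E, hE⟩ : ∃ E : ℝ → ℝ≥0∞, ∀ v, E v = ∫⁻ u : ℝ, N u v ^ b := ⟨_, fun _ => rfl⟩
  have hEm : Measurable E := by
    have : E = fun v => ∫⁻ u : ℝ, N u v ^ b := funext hE
    rw [this]
    exact Measurable.lintegral_prod_left' hNb
  have hNv : ∀ v, Measurable (fun u => N u v) := fun v =>
    hN.comp (measurable_id.prodMk measurable_const)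
  simp only [← hE] at hK ⊢
  -- almost every `v`
  have hEt : ∀ᵐ v : ℝ, E v ≠ ∞ := by
    have h := ae_lt_top (hEm.pow_const c) hK
    filter_upwards [h] with v hv hv'
    rw [hv', ENNReal.top_rpow_of_pos hc] at hv
    exact lt_irrefl _ hv
  have hNt : ∀ v, E v ≠ ∞ → ∀ᵐ u : ℝ, N u v ≠ ∞ := by
    intro v hv
    rw [hE] at hv
    have h := ae_lt_top ((hNv v).pow_const b) hv
    filter_upwards [h] with u hu hu'
    rw [hu', ENNReal.top_rpow_of_pos hb] at hu
    exact lt_irrefl _ hu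
  have hN0 : ∀ v, E v = 0 → ∀ᵐ u : ℝ, N u v = 0 := by
    intro v hv
    rw [hE, lintegral_eq_zero_iff ((hNv v).pow_const b)] at hv
    filter_upwards [hv] with u hu
    have hu' : N u v ^ b = 0 := hu
    rcases ENNReal.rpow_eq_zero_iff.mp hu' with h | h
    · exact h.1
    · exact absurd h.2 (by linarith)
  refine ⟨fun u v => N u v ^ A * E v ^ K, fun u v => N u v ^ B * E v ^ G, ?_, ?_, ?_, ?_, ?_⟩
  · exact (hN.pow_const A).mul ((hEm.comp measurable_snd).pow_const K)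
  · exact (hN.pow_const B).mul ((hEm.comp measurable_snd).pow_const G)
  · filter_upwards [hEt] with v hv
    by_cases h0 : E v = 0
    · filter_upwards [hN0 v h0] with u hu
      exact Or.inl hu
    · filter_upwards [hNt v hv] with u hu
      by_cases hu0 : N u v = 0
      · exact Or.inl hu0
      · exact Or.inr (le_of_eq (Wgt_one hu0 hu h0 hv ht hs h1 h2).symm)
  · apply lintegral_mono_ae
    filter_upwards [hEt] with v hv
    by_cases h0 : E v = 0
    · have : ∫⁻ u : ℝ, (N u v ^ A * E v ^ K) ^ q = 0 := by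
        rw [lintegral_congr_ae (g := fun _ => (0 : ℝ≥0∞)), lintegral_zero]
        filter_upwards [hN0 v h0] with u hu
        rw [hu, ENNReal.zero_rpow_of_pos hA, zero_mul, ENNReal.zero_rpow_of_pos hq]
      rw [this, ENNReal.zero_rpow_of_pos he]
      exact zero_le
    · have h7 : ∫⁻ u : ℝ, (N u v ^ A * E v ^ K) ^ q = E v ^ (K * q + 1) := by
        have : ∀ u, (N u v ^ A * E v ^ K) ^ q = N u v ^ b * E v ^ (K * q) := by
          intro u
          rw [ENNReal.mul_rpow_of_nonneg _ _ hq.le, ← ENNReal.rpow_mul, ← ENNReal.rpow_mul, h3]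
        simp only [this]
        rw [lintegral_mul_const _ ((hNv v).pow_const b), ← hE, ENNReal.rpow_add _ _ h0 hv,
          ENNReal.rpow_one, mul_comm]
      rw [h7, ← ENNReal.rpow_mul, h4]
  · apply lintegral_mono_ae
    filter_upwards [hEt] with v hv
    by_cases h0 : E v = 0
    · have : ∫⁻ u : ℝ, N u v ^ r * (N u v ^ B * E v ^ G) = 0 := by
        rw [lintegral_congr_ae (g := fun _ => (0 : ℝ≥0∞)), lintegral_zero]
        filter_upwards [hN0 v h0] with u hu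
        rw [hu, ENNReal.zero_rpow_of_pos hr, zero_mul]
      rw [this]
      exact zero_le
    · have h8 : ∫⁻ u : ℝ, N u v ^ r * (N u v ^ B * E v ^ G) ≤
          ∫⁻ u : ℝ, N u v ^ b * E v ^ G := by
        apply lintegral_mono_ae
        filter_upwards [hNt v hv] with u hu
        by_cases hu0 : N u v = 0
        · rw [hu0, ENNReal.zero_rpow_of_pos hr, zero_mul]
          exact zero_le
        · rw [← mul_assoc, ← ENNReal.rpow_add _ _ hu0 hu, h5]
      refine h8.trans (le_of_eq ?_)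
      rw [lintegral_mul_const _ ((hNv v).pow_const b), ← hE, mul_comm, ← h6,
        ENNReal.rpow_add _ _ h0 hv, ENNReal.rpow_one]

/-- [WGT]. -/
theorem thm_Wgt : St_Wgt := by
  intro d p hd hp N hN hK
  have hd2 : (2 : ℝ) ≤ (d : ℝ) := by exact_mod_cast hd
  have hdp : (d : ℝ) + 1 < (d : ℝ) * p := by
    have := (div_lt_iff₀ (by linarith : (0 : ℝ) < (d : ℝ))).mp hp
    linarith
  revert hK
  generalize (d : ℝ) * p = P at *
  generalize (d : ℝ) = D at *
  intro hK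
  have e1 : (0 : ℝ) < D + 1 := by linarith
  have e2 : (0 : ℝ) < P := by linarith
  have e3 : (0 : ℝ) < P - 1 := by linarith
  have e4 : (0 : ℝ) < P - D + 1 := by linarith
  have e5 : (0 : ℝ) < P - D := by linarith
  have e6 : (0 : ℝ) < D - 1 := by linarith
  have n1 := e1.ne'
  have n2 := e2.ne'
  have n3 := e3.ne'
  have n4 := e4.ne'
  have n5 := e5.ne'
  have n6 := e6.ne'
  refine Wgt_core (P / (D + 1)) ((D + 1) / (P - 1)) (2 * P / ((D + 1) * (P - D + 1)))
    (-((D - 1) * ((D + 1) / (P - 1) - 1) / (P - D + 1))) (P / (D + 1) - P / (D - 1))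
    ((D + 1) / (P - 1) - 1) ((P - D + 1) / P) ((D - 1) / P) ((P - D + 1) / 2) (2 / (P - D))
    (P / (D - 1)) (by positivity) (by positivity) (by positivity) (by positivity) (by positivity)
    (by positivity) (by positivity) (by positivity) ?_ ?_ ?_ ?_ ?_ ?_ N hN hK
  · field_simp
    ring
  · field_simp
    ring
  · field_simp
  · field_simp
    ring
  · ring
  · ring

end Pool.Agent.FTN
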